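import Pool.Agent.Run7.h777.VW.Main

/-!
# Vinogradov's system: sets of integers contained in an arithmetic progression
-/

set_option autoImplicit false

namespace Pool.Agent.Run7.h777.VW

open Finset Pool.Agent.Run7.h777.VA

/-- pairs of tuples of integers of `A` with equal power sums -/
def SZ (s k : ℕ) (A : Finset ℤ) : Finset ((Fin s → ℤ) × (Fin s → ℤ)) :=
  ((Fintype.piFinset fun _ : Fin s => A) ×ˢ (Fintype.piFinset fun _ : Fin s => A)).filter
    (fun p => ∀ j : Fin k, ∑ i, p.1 i ^ ((j : ℕ) + 1) = ∑ i, p.2 i ^ ((j : ℕ) + 1))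

open scoped Classical in
/-- the non-diagonal ones -/
noncomputable def NZ (s k : ℕ) (A : Finset ℤ) : Finset ((Fin s → ℤ) × (Fin s → ℤ)) :=
  (SZ s k A).filter (fun p => ¬ ∃ σ : Equiv.Perm (Fin s), p.2 = p.1 ∘ σ)

lemma aff (s k : ℕ) (u v : Fin s → ℤ)
    (h : ∀ j : Fin k, ∑ i, u i ^ ((j : ℕ) + 1) = ∑ i, v i ^ ((j : ℕ) + 1)) (c b : ℤ) :
    ∀ j : Fin k, ∑ i, (c + b * u i) ^ ((j : ℕ) + 1) = ∑ i, (c + b * v i) ^ ((j : ℕ) + 1) := by
  intro j
  have h1 : ∀ x : Fin s → ℤ, ∑ i, (c + b * x i) ^ ((j : ℕ) + 1) =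
      ∑ m ∈ Finset.range ((j : ℕ) + 1 + 1), c ^ m * b ^ ((j : ℕ) + 1 - m) *
        (((j : ℕ) + 1).choose m) * ∑ i, x i ^ ((j : ℕ) + 1 - m) := by
    intro x
    rw [Finset.sum_congr rfl fun i _ => add_pow c (b * x i) ((j : ℕ) + 1), Finset.sum_comm]
    refine Finset.sum_congr rfl fun m _ => ?_
    rw [Finset.mul_sum]
    refine Finset.sum_congr rfl fun i _ => ?_
    rw [mul_pow]
    ring
  rw [h1 u, h1 v]
  refine Finset.sum_congr rfl fun m _ => ?_
  congr 1
  rcases Nat.eq_zero_or_pos ((j : ℕ) + 1 - m) with h2 | h2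
  · rw [h2]
    simp
  · have hj := j.isLt
    have h3 := h ⟨(j : ℕ) + 1 - m - 1, by omega⟩
    have h4 : (j : ℕ) + 1 - m - 1 + 1 = (j : ℕ) + 1 - m := by omega
    simp only at h3
    rwa [h4] at h3

lemma SZ_card (s k N : ℕ) (c b : ℤ) (hb : b ≠ 0) (A : Finset ℤ)
    (hA : ∀ z ∈ A, ∃ n : ℕ, 1 ≤ n ∧ n ≤ N ∧ z = c + b * n) :
    ∃ A' : Finset ℕ, (∀ z ∈ A', 1 ≤ z ∧ z ≤ N) ∧ A'.card = A.card ∧
      (SA s k A').card = (SZ s k A).card ∧ (NA s k A').card = (NZ s k A).card := by
  classical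
  obtain ⟨φ, hφ⟩ : ∃ φ : ℕ → ℤ, φ = fun n : ℕ => c + b * (n : ℤ) := ⟨_, rfl⟩
  have hφ' : ∀ n, φ n = c + b * (n : ℤ) := fun n => by rw [hφ]
  have hinj : Function.Injective φ := by
    intro m n hmn
    rw [hφ', hφ'] at hmn
    have h1 : b * ((m : ℤ) - n) = 0 := by linarith
    rcases mul_eq_zero.1 h1 with h2 | h2
    · exact absurd h2 hb
    · have : (m : ℤ) = n := by linarith
      exact_mod_cast this
  obtain ⟨A', hA'⟩ : ∃ A' : Finset ℕ, A' = (Finset.Icc 1 N).filter (fun n => φ n ∈ A) := ⟨_, rfl⟩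
  have hmem : ∀ n, n ∈ A' → φ n ∈ A := fun n hn => by
    rw [hA'] at hn
    exact (Finset.mem_filter.1 hn).2
  have himg : A'.image φ = A := by
    ext z
    rw [Finset.mem_image]
    constructor
    · rintro ⟨n, hn, rfl⟩
      exact hmem n hn
    · intro hz
      obtain ⟨n, hn1, hn2, hzn⟩ := hA z hz
      refine ⟨n, ?_, ?_⟩
      · rw [hA', Finset.mem_filter, Finset.mem_Icc]
        refine ⟨⟨hn1, hn2⟩, ?_⟩
        rw [hφ', ← hzn]
        exact hz
      · rw [hφ', hzn]
  have hinj2 : Function.Injective (fun p : (Fin s → ℕ) × (Fin s → ℕ) =>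
      ((fun i => φ (p.1 i), fun i => φ (p.2 i)) : (Fin s → ℤ) × (Fin s → ℤ))) := by
    intro p q hpq
    have h1 : (fun i => φ (p.1 i)) = fun i => φ (q.1 i) := congrArg Prod.fst hpq
    have h2 : (fun i => φ (p.2 i)) = fun i => φ (q.2 i) := congrArg Prod.snd hpq
    exact Prod.ext (funext fun i => hinj (congrFun h1 i)) (funext fun i => hinj (congrFun h2 i))
  have himg2 : (SA s k A').image (fun p : (Fin s → ℕ) × (Fin s → ℕ) =>
      ((fun i => φ (p.1 i), fun i => φ (p.2 i)) : (Fin s → ℤ) × (Fin s → ℤ))) = SZ s k A := by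
    ext p
    rw [Finset.mem_image]
    constructor
    · rintro ⟨q, hq, rfl⟩
      rw [SA, Finset.mem_filter, Finset.mem_product, Fintype.mem_piFinset,
        Fintype.mem_piFinset] at hq
      obtain ⟨⟨h1, h2⟩, h3⟩ := hq
      rw [SZ, Finset.mem_filter, Finset.mem_product, Fintype.mem_piFinset, Fintype.mem_piFinset]
      refine ⟨⟨fun i => hmem _ (h1 i), fun i => hmem _ (h2 i)⟩, ?_⟩
      have h4 := aff s k (fun i => (q.1 i : ℤ)) (fun i => (q.2 i : ℤ)) (fun j => by
        have := h3 j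
        exact_mod_cast this) c b
      intro j
      have h5 := h4 j
      simp only [hφ']
      exact h5
    · intro hp
      rw [SZ, Finset.mem_filter, Finset.mem_product, Fintype.mem_piFinset,
        Fintype.mem_piFinset] at hp
      obtain ⟨⟨h1, h2⟩, h3⟩ := hp
      have h6 : ∀ z ∈ A, ∃ n ∈ A', φ n = z := by
        intro z hz
        rw [← himg, Finset.mem_image] at hz
        exact hz
      choose x hx1 hx2 using fun i => h6 _ (h1 i)
      choose y hy1 hy2 using fun i => h6 _ (h2 i)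
      refine ⟨(x, y), ?_, ?_⟩
      · rw [SA, Finset.mem_filter, Finset.mem_product, Fintype.mem_piFinset, Fintype.mem_piFinset]
        refine ⟨⟨hx1, hy1⟩, ?_⟩
        have h4 := aff s k p.1 p.2 h3 (-c) 1
        intro j
        have h5 := h4 j
        have h7 : ∀ i, -c + 1 * p.1 i = b * (x i : ℤ) := by
          intro i
          rw [← hx2 i, hφ']
          ring
        have h8 : ∀ i, -c + 1 * p.2 i = b * (y i : ℤ) := by
          intro i
          rw [← hy2 i, hφ']
          ring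
        simp only [h7, h8, mul_pow] at h5
        rw [← Finset.mul_sum, ← Finset.mul_sum] at h5
        have h9 := mul_left_cancel₀ (pow_ne_zero _ hb) h5
        exact_mod_cast h9
      · exact Prod.ext (funext hx2) (funext hy2)
  refine ⟨A', ?_, ?_, ?_, ?_⟩
  · intro z hz
    rw [hA'] at hz
    exact Finset.mem_Icc.1 (Finset.mem_filter.1 hz).1
  · rw [← himg, Finset.card_image_of_injective _ hinj]
  · rw [← himg2, Finset.card_image_of_injective _ hinj2]
  · have h1 : NZ s k A = (NA s k A').image (fun p : (Fin s → ℕ) × (Fin s → ℕ) =>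
        ((fun i => φ (p.1 i), fun i => φ (p.2 i)) : (Fin s → ℤ) × (Fin s → ℤ))) := by
      rw [NZ, ← himg2, Finset.filter_image, NA]
      congr 1
      refine Finset.filter_congr fun p _ => ?_
      refine not_congr (exists_congr fun σ => ?_)
      constructor
      · intro h
        funext i
        exact hinj (congrFun h i)
      · intro h
        funext i
        show φ (p.2 i) = φ (p.1 (σ i))
        rw [h]
        rfl
    rw [h1, Finset.card_image_of_injective _ hinj2]

end Pool.Agent.Run7.h777.VW
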