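import Pool.Agent.Run7.h777.VW.Step
import Pool.Agent.N143.LV.CORE
import Pool.Agent.N541.LV.Main
import Pool.Agent.Run7.h777.VA.Core

/-!
# Vinogradov's system with bounded weights: summing over all sequences
-/

set_option autoImplicit false

namespace Pool.Agent.Run7.h777.VW

open Finset Pool.Agent.N541.LV Pool.Agent.N143.LV

/-- the step of `Step.lean`, with all hypotheses discharged -/
theorem stepW' (d m q s C0 : ℕ) (hd : 1 ≤ d) (hm : 1 ≤ m) (hq : 1 ≤ q) (ε : ℝ) (hε : 0 < ε) :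
    ∃ C : ℝ, 0 < C ∧
  ∀ X : ℕ, 1 ≤ X → ∀ (R : Fin d → ℕ), (∀ l, 1 ≤ R l ∧ R l ≤ C0 * X ^ s) →
  ∀ (Λ : AddSubgroup (Fin d → ℤ)) (o : Fin m → ℕ), (∀ j, 1 ≤ o j ∧ o j ≤ X) →
  ∀ (w : ℕ → ℝ), (∀ z, 0 ≤ w z) → (∀ z, w z ≤ 1) →
  ∀ (Q : ℕ) (Z : Finset ℕ), 1 ≤ Q → ∑ z ∈ Z, w z ≤ Q → Z ⊆ Finset.Icc 1 X →
    (∀ z ∈ Z, ∃ P ∈ pts (sub Λ o z) R, ev P (z : ℤ) ≠ 0 ∧ ∀ j, ev P (o j : ℤ) ≠ 0) →
    ∑ z ∈ Z, w z * Wt q Q (sub Λ o z) R ≤
      C * (X : ℝ) ^ ε * (Q : ℝ) ^ (max 0 (1 - (m : ℝ) / q)) * Wt q Q Λ R :=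
  stepW (Pool.Agent.N916.LV.Idx.main Pool.Agent.N401.LV.main)
      Pool.Agent.N374.LVGCD.gcd_main Pool.Agent.N374.LVGCD.cong_main
      (Pool.Agent.N622.LV.COST.main divM)
      (Pool.Agent.N432.LV.Drop.main Pool.Agent.N401.LV.main Pool.Agent.N374.LVGCD.cong_main divM)
      d m q s C0 hd hm hq ε hε

open scoped Classical in
theorem coreW (d q s C0 : ℕ) (hd : 1 ≤ d) (hds : d ≤ s) (hq : 1 ≤ q) (ε : ℝ) (hε : 0 < ε) :
    ∃ C : ℝ, 0 < C ∧
  ∀ X : ℕ, 1 ≤ X → ∀ (R : Fin d → ℕ), (∀ l, 1 ≤ R l ∧ R l ≤ C0 * X ^ (s - (l : ℕ))) →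
    ∀ w : ℕ → ℝ, (∀ z, 0 ≤ w z) → (∀ z, w z ≤ 1) → ∀ Q : ℕ, 1 ≤ Q →
    ∑ z ∈ Finset.Icc 1 X, w z ≤ Q →
    ∑ p ∈ seqs X (Live d R) (2 * s), (p.map w).prod ≤
      C * (X : ℝ) ^ (((d : ℝ) * s - (d : ℝ) * (d - 1) / 2) / q + ε) *
        (Q : ℝ) ^ ((q : ℝ) + (1 - 1 / (q : ℝ)) * ((d : ℝ) - 1)) := by
  set e1 : ℝ := ε / (2 * s + 1) with he1
  have hs1 : (1 : ℝ) ≤ s := by exact_mod_cast hd.trans hds
  have he1pos : 0 < e1 := by positivity
  have hex : ∀ m : ℕ, ∃ C : ℝ, 0 < C ∧ (1 ≤ m →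
      ∀ X : ℕ, 1 ≤ X → ∀ (R : Fin d → ℕ), (∀ l, 1 ≤ R l ∧ R l ≤ C0 * X ^ s) →
      ∀ (Λ : AddSubgroup (Fin d → ℤ)) (o : Fin m → ℕ), (∀ j, 1 ≤ o j ∧ o j ≤ X) →
      ∀ (w : ℕ → ℝ), (∀ z, 0 ≤ w z) → (∀ z, w z ≤ 1) →
      ∀ (Q : ℕ) (Z : Finset ℕ), 1 ≤ Q → ∑ z ∈ Z, w z ≤ Q → Z ⊆ Finset.Icc 1 X →
      (∀ z ∈ Z, ∃ P ∈ pts (sub Λ o z) R, ev P (z : ℤ) ≠ 0 ∧ ∀ j, ev P (o j : ℤ) ≠ 0) →
      ∑ z ∈ Z, w z * Wt q Q (sub Λ o z) R ≤
        C * (X : ℝ) ^ e1 * (Q : ℝ) ^ (max 0 (1 - (m : ℝ) / q)) * Wt q Q Λ R) := by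
    intro m
    by_cases hm : 1 ≤ m
    · obtain ⟨C, hC, h⟩ := stepW' d m q s C0 hd hm hq e1 he1pos
      exact ⟨C, hC, fun _ => h⟩
    · exact ⟨1, one_pos, fun h => absurd h hm⟩
  choose Cs hCs hstep using hex
  set PC : ℝ := ∏ t ∈ Finset.range (2 * s - 1), Cs ((t + 2) / 2) with hPC
  have hPCpos : 0 < PC := Finset.prod_pos fun t _ => hCs _
  refine ⟨PC * (((3 * C0 : ℝ) ^ d) ^ (1 / (q : ℝ)) + 1), by positivity, ?_⟩
  intro X hX R hR w hw hw1 Q hQ hwQ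
  have hQ' : (1 : ℝ) ≤ Q := by exact_mod_cast hQ
  have hQ0 : (0 : ℝ) < Q := by linarith
  have hX' : (1 : ℝ) ≤ X := by exact_mod_cast hX
  have hX0 : (0 : ℝ) < X := by linarith
  have hRs : ∀ l, 1 ≤ R l ∧ R l ≤ C0 * X ^ s := fun l => ⟨(hR l).1,
    (hR l).2.trans (Nat.mul_le_mul_left _ (Nat.pow_le_pow_right hX (Nat.sub_le _ _)))⟩
  set W : List ℕ → ℝ := fun p => Wt q Q (lat d p) R with hW
  set K : ℕ → ℝ := fun t => match t with
    | 0 => (Q : ℝ)
    | t + 1 => Cs ((t + 2) / 2) * (X : ℝ) ^ e1 *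
        (Q : ℝ) ^ (max 0 (1 - ((((t + 2) / 2 : ℕ) : ℝ)) / (q : ℝ))) with hK
  have hWnil : 1 ≤ W [] := by
    apply Wt_ge q Q hq hQ
    refine ⟨Pi.single ⟨0, hd⟩ 1, ?_, ?_⟩
    · unfold pts
      rw [Finset.mem_filter]
      refine ⟨?_, AddSubgroup.mem_top _⟩
      unfold Pool.Agent.N541.LV.box
      rw [Fintype.mem_piFinset]
      intro l
      rw [Finset.mem_Icc]
      have h1 := (hR l).1
      by_cases hl : l = ⟨0, hd⟩
      · subst hl
        rw [Pi.single_eq_same]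
        constructor <;> omega
      · rw [Pi.single_eq_of_ne hl]
        constructor <;> omega
    · intro h
      have := congrFun h ⟨0, hd⟩
      rw [Pi.single_eq_same] at this
      exact one_ne_zero this
  have hWlive : ∀ p, Live d R p → 1 ≤ W p := by
    intro p hp
    cases p with
    | nil => exact hWnil
    | cons z p =>
      obtain ⟨P, hP, hz⟩ := hp
      apply Wt_ge q Q hq hQ
      refine ⟨P, hP, ?_⟩
      intro h0
      apply hz z (by simp)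
      rw [h0]
      simp [ev]
  have hKnn : ∀ t, 0 ≤ K t := by
    intro t
    cases t with
    | zero => exact hQ0.le
    | succ t =>
      have := hCs ((t + 2) / 2)
      simp only [hK]
      positivity
  have hmapnn : ∀ p : List ℕ, 0 ≤ (p.map w).prod := by
    intro p
    apply List.prod_nonneg
    intro x hx
    obtain ⟨z, _, rfl⟩ := List.mem_map.1 hx
    exact hw z
  have hstep1 : ∀ t, ∀ p ∈ seqs X (Live d R) t, ∀ Z : Finset ℕ, Z ⊆ Finset.Icc 1 X →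
      (∀ z ∈ Z, Live d R (z :: p)) →
      ∑ z ∈ Z, ((z :: p).map w).prod * W (z :: p) ≤ K t * ((p.map w).prod * W p) := by
    intro t p hp Z hZ hL
    suffices hs : ∑ z ∈ Z, w z * W (z :: p) ≤ K t * W p by
      have h0 := mul_le_mul_of_nonneg_left hs (hmapnn p)
      calc ∑ z ∈ Z, ((z :: p).map w).prod * W (z :: p)
          = (p.map w).prod * ∑ z ∈ Z, w z * W (z :: p) := by
            rw [Finset.mul_sum]
            refine Finset.sum_congr rfl fun z _ => ?_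
            rw [List.map_cons, List.prod_cons]
            ring
        _ ≤ (p.map w).prod * (K t * W p) := h0
        _ = _ := by ring
    obtain ⟨hlen, hent, hlive⟩ := seqs_mem X (Live d R) t p hp
    have hZQ : ∑ z ∈ Z, w z ≤ Q :=
      (Finset.sum_le_sum_of_subset_of_nonneg hZ (fun z _ _ => hw z)).trans hwQ
    cases t with
    | zero =>
      have hp0 : p = [] := List.length_eq_zero_iff.1 hlen
      subst hp0
      have h1 : ∀ z, W [z] = W [] := by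
        intro z
        simp only [hW, lat]
        rw [sub_nil]
      calc ∑ z ∈ Z, w z * W [z] = (∑ z ∈ Z, w z) * W [] := by
            rw [Finset.sum_mul]
            exact Finset.sum_congr rfl fun z _ => by rw [h1 z]
        _ ≤ Q * W [] := by
            apply mul_le_mul_of_nonneg_right _ (by linarith)
            exact hZQ
    | succ t =>
      have hm : 1 ≤ (p.length + 1) / 2 := by omega
      have h1 := hstep ((p.length + 1) / 2) hm X hX R hRs (lat d p) (opp p) (by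
        intro j
        have hj := j.isLt
        have hlt : 2 * (j : ℕ) < p.length := by omega
        have : opp p j ∈ p := by
          unfold opp
          rw [List.getD_eq_getElem _ _ hlt]
          exact List.getElem_mem _
        exact hent _ this) w hw hw1 Q Z hQ hZQ hZ (by
        intro z hz
        obtain ⟨P, hP, hPz⟩ := hL z hz
        refine ⟨P, hP, hPz z (by simp), ?_⟩
        intro j
        apply hPz
        apply List.mem_cons_of_mem
        have hj := j.isLt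
        have hlt : 2 * (j : ℕ) < p.length := by omega
        unfold opp
        rw [List.getD_eq_getElem _ _ hlt]
        exact List.getElem_mem _)
      have h2 : (p.length + 1) / 2 = (t + 2) / 2 := by omega
      have h3 : Cs ((p.length + 1) / 2) * (X : ℝ) ^ e1 *
          (Q : ℝ) ^ (max 0 (1 - ((((p.length + 1) / 2 : ℕ) : ℝ)) / (q : ℝ))) = K (t + 1) := by
        simp only [hK]
        rw [h2]
      rw [← h3]
      exact h1
  have hkey : ∀ t, ∑ p ∈ seqs X (Live d R) t, (p.map w).prod * W p ≤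
      (∏ i ∈ Finset.range t, K i) * W [] := by
    intro t
    induction t with
    | zero =>
      simp [seqs]
    | succ t ih =>
      have h1 := Pool.Agent.N255.LV.step X (Live d R) (fun p => (p.map w).prod * W p) t (K t)
        (hstep1 t)
      rw [Finset.prod_range_succ]
      calc ∑ p ∈ seqs X (Live d R) (t + 1), (p.map w).prod * W p
          ≤ K t * ∑ p ∈ seqs X (Live d R) t, (p.map w).prod * W p := h1
        _ ≤ K t * ((∏ i ∈ Finset.range t, K i) * W []) := mul_le_mul_of_nonneg_left ih (hKnn t)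
        _ = _ := by ring
  have htree : ∑ p ∈ seqs X (Live d R) (2 * s), (p.map w).prod ≤
      (∏ t ∈ Finset.range (2 * s), K t) * W [] := by
    refine le_trans ?_ (hkey (2 * s))
    apply Finset.sum_le_sum
    intro p hp
    have h3 : 1 ≤ W p := by
      obtain ⟨n, hn⟩ : ∃ n : ℕ, 2 * s = n + 1 := ⟨2 * s - 1, by omega⟩
      rw [hn, seqs] at hp
      exact hWlive p (Finset.mem_filter.1 hp).2
    have := mul_le_mul_of_nonneg_left h3 (hmapnn p)
    linarith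
  have hprod : ∏ t ∈ Finset.range (2 * s), K t = (Q : ℝ) * (PC * (X : ℝ) ^ (((2 * s - 1 : ℕ) : ℝ) * e1) *
      (Q : ℝ) ^ (∑ t ∈ Finset.range (2 * s - 1),
        (max 0 (1 - ((((t + 2) / 2 : ℕ) : ℝ)) / (q : ℝ))))) := by
    obtain ⟨n, hn⟩ : ∃ n : ℕ, n = 2 * s - 1 := ⟨_, rfl⟩
    have h2s : 2 * s = n + 1 := by omega
    rw [hPC, ← hn, h2s, Finset.prod_range_succ']
    simp only [hK]
    rw [Finset.prod_mul_distrib, Finset.prod_mul_distrib, Real.rpow_sum_of_pos hQ0, Finset.prod_const,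
      Finset.card_range, ← Real.rpow_natCast ((X : ℝ) ^ e1) n, ← Real.rpow_mul hX0.le,
      mul_comm e1 (n : ℝ)]
    ring
  have hsum := Pool.Agent.N255.LV.sum_main q (2 * s - 1) hq
  have hexpX : (((2 * s - 1 : ℕ) : ℝ)) * e1 ≤ ε := by
    have h2 : (((2 * s - 1 : ℕ) : ℝ)) ≤ 2 * s + 1 := by
      have : 2 * s - 1 ≤ 2 * s + 1 := by omega
      exact_mod_cast this
    calc (((2 * s - 1 : ℕ) : ℝ)) * e1 ≤ (2 * s + 1) * e1 :=
          mul_le_mul_of_nonneg_right h2 he1pos.le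
      _ = ε := by rw [he1]; field_simp
  have hWn := Pool.Agent.Run7.h777.VA.W_nilA q X Q s C0 hd hds hq hX hQ R hR
  set v : ℝ := ((d : ℝ) * s - (d : ℝ) * (d - 1) / 2) / q with hv
  set u : ℝ := (1 - 1 / (q : ℝ)) * ((d : ℝ) - 1) with hu
  have hWn' : W [] ≤ (((3 * C0 : ℝ) ^ d) ^ (1 / (q : ℝ)) + 1) * ((X : ℝ) ^ v * (Q : ℝ) ^ u) := by
    refine le_trans hWn ?_
    apply mul_le_mul_of_nonneg_right (by linarith) (by positivity)
  calc ∑ p ∈ seqs X (Live d R) (2 * s), (p.map w).prod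
      ≤ (∏ t ∈ Finset.range (2 * s), K t) * W [] := htree
    _ = PC * ((X : ℝ) ^ (((2 * s - 1 : ℕ) : ℝ) * e1) * (Q : ℝ) ^ ((1 : ℝ) + ∑ t ∈ Finset.range (2 * s - 1),
        (max 0 (1 - ((((t + 2) / 2 : ℕ) : ℝ)) / (q : ℝ))))) * W [] := by
        rw [hprod, Real.rpow_add hQ0, Real.rpow_one]
        ring
    _ ≤ PC * ((X : ℝ) ^ ε * (Q : ℝ) ^ (q : ℝ)) *
        ((((3 * C0 : ℝ) ^ d) ^ (1 / (q : ℝ)) + 1) * ((X : ℝ) ^ v * (Q : ℝ) ^ u)) := by
        apply mul_le_mul _ hWn' (by linarith) (by positivity)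
        apply mul_le_mul_of_nonneg_left _ hPCpos.le
        apply mul_le_mul
        · exact Real.rpow_le_rpow_of_exponent_le hX' hexpX
        · exact Real.rpow_le_rpow_of_exponent_le hQ' hsum
        · positivity
        · positivity
    _ = PC * (((3 * C0 : ℝ) ^ d) ^ (1 / (q : ℝ)) + 1) *
        ((X : ℝ) ^ v * (X : ℝ) ^ ε) * ((Q : ℝ) ^ (q : ℝ) * (Q : ℝ) ^ u) := by ring
    _ = _ := by
        rw [← Real.rpow_add hX0, ← Real.rpow_add hQ0]

end Pool.Agent.Run7.h777.VW
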