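import Pool.Agent.Run7.h777.VW.Red
import Pool.Agent.Run7.h777.VA.Fin

/-!
# Vinogradov's system with bounded weights: the non-diagonal solutions
-/

set_option autoImplicit false

namespace Pool.Agent.Run7.h777.VW

open Finset Pool.Agent.Run7.h777.VA

theorem na_q (s k q : ℕ) (hks : k < s) (hq : 1 ≤ q) (ε : ℝ) (hε : 0 < ε) :
    ∃ C : ℝ, 0 ≤ C ∧ ∀ N : ℕ, 1 ≤ N → ∀ w : ℕ → ℝ, (∀ z, 0 ≤ w z) → (∀ z, w z ≤ 1) →
      ∀ Q : ℕ, 1 ≤ Q → Q ≤ N → ∑ z ∈ Finset.Icc 1 N, w z ≤ Q →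
      ∑ p ∈ NA s k (Finset.Icc 1 N), wt w p ≤ C * (N : ℝ) ^ (vol s k / q + ε) *
        (Q : ℝ) ^ ((q : ℝ) + (1 - 1 / (q : ℝ)) * ((s : ℝ) - k - 1)) := by
  classical
  obtain ⟨C1, hC1, h1⟩ := redW s k
  have hq0 : (0 : ℝ) < q := by exact_mod_cast hq
  have hex : ∀ t : ℕ, ∃ C : ℝ, 0 < C ∧ (t ∈ Finset.Ioc k s → ∀ N : ℕ, 1 ≤ N → ∀ w : ℕ → ℝ,
      (∀ z, 0 ≤ w z) → (∀ z, w z ≤ 1) → ∀ Q : ℕ, 1 ≤ Q → ∑ z ∈ Finset.Icc 1 N, w z ≤ Q →
      ∑ p ∈ DA t k (Finset.Icc 1 N), wt w p ≤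
      C * (N : ℝ) ^ (vol t k / q + ε) *
        (Q : ℝ) ^ ((q : ℝ) + (1 - 1 / (q : ℝ)) * ((t : ℝ) - k - 1))) := by
    intro t
    by_cases ht : t ∈ Finset.Ioc k s
    · have ht' := Finset.mem_Ioc.1 ht
      obtain ⟨d, rfl⟩ : ∃ d, t = k + d := ⟨t - k, by omega⟩
      obtain ⟨C, hC, h⟩ := da_q k d q (by omega) hq ε hε
      refine ⟨C, hC, fun _ N hN w hw hw1 Q hQ hwQ =>
        (h N hN w hw hw1 Q hQ hwQ).trans (le_of_eq ?_)⟩
      have e1 : ((d : ℝ) * ((k : ℝ) + d) - (d : ℝ) * (d - 1) / 2) = vol ((k + d : ℕ) : ℝ) k := by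
        unfold vol
        push_cast
        ring
      have e2 : (((k + d : ℕ) : ℝ) - k - 1) = (d : ℝ) - 1 := by
        push_cast
        ring
      rw [e1, e2]
    · exact ⟨1, one_pos, fun h => absurd h ht⟩
  choose C2 hC2 h2 using hex
  refine ⟨C1 * ∑ t ∈ Finset.Ioc k s, C2 t,
    mul_nonneg hC1.le (Finset.sum_nonneg fun t _ => (hC2 t).le), ?_⟩
  intro N hN w hw hw1 Q hQ hQN' hwQ
  have hN1 : (1 : ℝ) ≤ N := by exact_mod_cast hN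
  have hN0 : (0 : ℝ) < N := by linarith
  have hQ1 : (1 : ℝ) ≤ Q := by exact_mod_cast hQ
  have hQ0 : (0 : ℝ) < Q := by linarith
  have hQN : (Q : ℝ) ≤ N := by exact_mod_cast hQN'
  refine (h1 (Finset.Icc 1 N) w hw).trans ?_
  rw [mul_assoc C1, mul_assoc C1]
  apply mul_le_mul_of_nonneg_left _ hC1.le
  rw [Finset.sum_mul, Finset.sum_mul]
  apply Finset.sum_le_sum
  intro t ht
  have ht' := Finset.mem_Ioc.1 ht
  have hd := h2 t ht N hN w hw hw1 Q hQ hwQ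
  have hts : (t : ℝ) ≤ s := by exact_mod_cast ht'.2
  have hkt : (k : ℝ) + 1 ≤ t := by exact_mod_cast ht'.1
  have hk0 : (0 : ℝ) ≤ k := Nat.cast_nonneg k
  have hvol : ((s : ℝ) - t) / q ≤ (vol s k - vol t k) / q := by
    apply div_le_div_of_nonneg_right _ hq0.le
    unfold vol
    nlinarith
  have hsq0 : 0 ≤ ∑ z ∈ Finset.Icc 1 N, w z ^ 2 := Finset.sum_nonneg fun z _ => by positivity
  have hsq : ∑ z ∈ Finset.Icc 1 N, w z ^ 2 ≤ Q := by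
    refine le_trans (Finset.sum_le_sum fun z _ => ?_) hwQ
    have := mul_le_mul_of_nonneg_left (hw1 z) (hw z)
    nlinarith
  have e0 : (∑ z ∈ Finset.Icc 1 N, w z ^ 2) ^ (s - t) ≤ (Q : ℝ) ^ ((s : ℝ) - t) := by
    refine (pow_le_pow_left₀ hsq0 hsq _).trans (le_of_eq ?_)
    rw [← Real.rpow_natCast, Nat.cast_sub ht'.2]
  have hkey : (Q : ℝ) ^ (((s : ℝ) - t) / q) ≤ (N : ℝ) ^ ((vol s k - vol t k) / q) := by
    calc (Q : ℝ) ^ (((s : ℝ) - t) / q) ≤ (N : ℝ) ^ (((s : ℝ) - t) / q) :=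
          Real.rpow_le_rpow hQ0.le hQN (div_nonneg (by linarith) hq0.le)
      _ ≤ _ := Real.rpow_le_rpow_of_exponent_le hN1 hvol
  have hDAnn : 0 ≤ ∑ p ∈ DA t k (Finset.Icc 1 N), wt w p :=
    Finset.sum_nonneg fun p _ => wt_nonneg hw p
  calc (∑ z ∈ Finset.Icc 1 N, w z ^ 2) ^ (s - t) * ∑ p ∈ DA t k (Finset.Icc 1 N), wt w p
      ≤ (Q : ℝ) ^ ((s : ℝ) - t) * (C2 t * (N : ℝ) ^ (vol t k / q + ε) *
        (Q : ℝ) ^ ((q : ℝ) + (1 - 1 / (q : ℝ)) * ((t : ℝ) - k - 1))) :=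
        mul_le_mul e0 hd hDAnn (by positivity)
    _ = C2 t * (N : ℝ) ^ (vol t k / q + ε) * ((Q : ℝ) ^ (((s : ℝ) - t) / q) *
        (Q : ℝ) ^ ((q : ℝ) + (1 - 1 / (q : ℝ)) * ((s : ℝ) - k - 1))) := by
        rw [← Real.rpow_add hQ0]
        rw [show (Q : ℝ) ^ ((s : ℝ) - t) * (C2 t * (N : ℝ) ^ (vol t k / q + ε) *
          (Q : ℝ) ^ ((q : ℝ) + (1 - 1 / (q : ℝ)) * ((t : ℝ) - k - 1))) =
          C2 t * (N : ℝ) ^ (vol t k / q + ε) * ((Q : ℝ) ^ ((s : ℝ) - t) *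
          (Q : ℝ) ^ ((q : ℝ) + (1 - 1 / (q : ℝ)) * ((t : ℝ) - k - 1))) by ring,
          ← Real.rpow_add hQ0]
        have e : ((s : ℝ) - t) + ((q : ℝ) + (1 - 1 / (q : ℝ)) * ((t : ℝ) - k - 1)) =
            ((s : ℝ) - t) / q + ((q : ℝ) + (1 - 1 / (q : ℝ)) * ((s : ℝ) - k - 1)) := by
          field_simp
          ring
        rw [e]
    _ ≤ C2 t * (N : ℝ) ^ (vol t k / q + ε) * ((N : ℝ) ^ ((vol s k - vol t k) / q) *
        (Q : ℝ) ^ ((q : ℝ) + (1 - 1 / (q : ℝ)) * ((s : ℝ) - k - 1))) := by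
        have := hC2 t
        apply mul_le_mul_of_nonneg_left _ (by positivity)
        exact mul_le_mul_of_nonneg_right hkey (by positivity)
    _ = C2 t * ((N : ℝ) ^ (vol t k / q + ε) * (N : ℝ) ^ ((vol s k - vol t k) / q)) *
        (Q : ℝ) ^ ((q : ℝ) + (1 - 1 / (q : ℝ)) * ((s : ℝ) - k - 1)) := by ring
    _ = _ := by
        rw [← Real.rpow_add hN0, mul_assoc]
        have e : vol t k / (q : ℝ) + ε + (vol s k - vol t k) / q = vol s k / q + ε := by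
          ring
        rw [e, ← mul_assoc]

/-- the same with the sum of the weights in place of a natural number above it -/
theorem na_S (s k q : ℕ) (hks : k < s) (hq : 1 ≤ q) (ε : ℝ) (hε : 0 < ε) :
    ∃ C : ℝ, 0 ≤ C ∧ ∀ N : ℕ, 1 ≤ N → ∀ w : ℕ → ℝ, (∀ z, 0 ≤ w z) → (∀ z, w z ≤ 1) →
      1 ≤ ∑ z ∈ Finset.Icc 1 N, w z →
      ∑ p ∈ NA s k (Finset.Icc 1 N), wt w p ≤ C * (N : ℝ) ^ (vol s k / q + ε) *
        (∑ z ∈ Finset.Icc 1 N, w z) ^ ((q : ℝ) + (1 - 1 / (q : ℝ)) * ((s : ℝ) - k - 1)) := by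
  obtain ⟨C, hC, h⟩ := na_q s k q hks hq ε hε
  set E : ℝ := (q : ℝ) + (1 - 1 / (q : ℝ)) * ((s : ℝ) - k - 1) with hE
  have hq1 : (1 : ℝ) ≤ q := by exact_mod_cast hq
  have hks' : (k : ℝ) + 1 ≤ s := by exact_mod_cast hks
  have hE0 : 0 ≤ E := by
    have h1 : 1 / (q : ℝ) ≤ 1 := by
      rw [div_le_one (by linarith)]
      exact hq1
    have h2 : 0 ≤ (1 - 1 / (q : ℝ)) * ((s : ℝ) - k - 1) := mul_nonneg (by linarith) (by linarith)
    rw [hE]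
    linarith
  refine ⟨C * 2 ^ E, by positivity, fun N hN w hw hw1 hS => ?_⟩
  set S : ℝ := ∑ z ∈ Finset.Icc 1 N, w z with hSdef
  have hSN : S ≤ N := by
    calc S ≤ ∑ z ∈ Finset.Icc 1 N, (1 : ℝ) := Finset.sum_le_sum fun z _ => hw1 z
      _ = N := by simp
  have h1 := h N hN w hw hw1 ⌈S⌉₊ (Nat.one_le_iff_ne_zero.2 (by
      intro h0
      rw [Nat.ceil_eq_zero] at h0
      linarith)) (Nat.ceil_le.2 hSN) (Nat.le_ceil S)
  have h2 : ((⌈S⌉₊ : ℕ) : ℝ) ≤ 2 * S := by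
    have := Nat.ceil_lt_add_one (by linarith : 0 ≤ S)
    linarith
  have h3 : ((⌈S⌉₊ : ℕ) : ℝ) ^ E ≤ 2 ^ E * S ^ E := by
    rw [← Real.mul_rpow (by norm_num) (by linarith)]
    exact Real.rpow_le_rpow (Nat.cast_nonneg _) h2 hE0
  refine h1.trans ?_
  calc C * (N : ℝ) ^ (vol s k / q + ε) * ((⌈S⌉₊ : ℕ) : ℝ) ^ E
      ≤ C * (N : ℝ) ^ (vol s k / q + ε) * (2 ^ E * S ^ E) :=
        mul_le_mul_of_nonneg_left h3 (by positivity)
    _ = _ := by ring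

/-- weights of sum at least `N ^ α` -/
theorem na_alpha (s k : ℕ) (hks : k < s) (α : ℝ) (hα : 0 < α) (hα1 : α ≤ 1) (c : ℝ)
    (hc : 0 < c) (h : 2 * ((s : ℝ) - k) * (s + k + 1) < α * (c ^ 2 + 4 * (s - k) - 5)) :
    ∃ C : ℝ, 0 ≤ C ∧ ∀ N : ℕ, 1 ≤ N → ∀ w : ℕ → ℝ, (∀ z, 0 ≤ w z) → (∀ z, w z ≤ 1) →
      (N : ℝ) ^ α ≤ ∑ z ∈ Finset.Icc 1 N, w z →
      ∑ p ∈ NA s k (Finset.Icc 1 N), wt w p ≤
        C * (∑ z ∈ Finset.Icc 1 N, w z) ^ (c + ((s : ℝ) - k - 1)) := by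
  have hks' : (k : ℝ) + 1 ≤ s := by exact_mod_cast hks
  have hk0 : (0 : ℝ) ≤ k := Nat.cast_nonneg k
  set B : ℝ := vol s k / α - ((s : ℝ) - k - 1) with hB
  have hv : (s : ℝ) - k ≤ vol s k := by
    unfold vol
    nlinarith
  have hv0 : 0 < vol s k := by linarith
  have hvα : vol s k ≤ vol s k / α := by
    rw [le_div_iff₀ hα]
    nlinarith
  have hB0 : 0 < B := by
    rw [hB]
    linarith
  obtain ⟨q, hq, hqB⟩ := Pool.Agent.N541.LV.exists_q B hB0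
  have hlt : Real.sqrt (4 * B + 1) < c := by
    rw [Real.sqrt_lt' hc]
    have h1 : 4 * vol s k < α * (c ^ 2 + 4 * (s - k) - 5) := by
      unfold vol
      linarith
    have h2 : 4 * (vol s k / α) < c ^ 2 + 4 * (s - k) - 5 := by
      rw [← mul_div_assoc, div_lt_iff₀ hα]
      linarith
    rw [hB]
    linarith
  set ε : ℝ := α * (c - Real.sqrt (4 * B + 1)) with hε
  have hε0 : 0 < ε := mul_pos hα (by linarith)
  obtain ⟨C, hC, hmain⟩ := na_S s k q hks hq ε hε0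
  refine ⟨C, hC, fun N hN w hw hw1 hNA => ?_⟩
  have hq0 : (0 : ℝ) < q := by exact_mod_cast hq
  have hN1 : (1 : ℝ) ≤ N := by exact_mod_cast hN
  have hN0 : (0 : ℝ) < N := by linarith
  set S : ℝ := ∑ z ∈ Finset.Icc 1 N, w z with hSdef
  have hQ1 : (1 : ℝ) ≤ S := (Real.one_le_rpow hN1 hα.le).trans hNA
  have hQ0 : (0 : ℝ) < S := by linarith
  have h1 := hmain N hN w hw hw1 hQ1
  have hNQ : (N : ℝ) ≤ S ^ (1 / α) := by
    have h2 := Real.rpow_le_rpow (by positivity) hNA (by positivity : 0 ≤ 1 / α)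
    rwa [← Real.rpow_mul hN0.le, mul_one_div_cancel hα.ne', Real.rpow_one] at h2
  have h3 : (N : ℝ) ^ (vol s k / q + ε) ≤ S ^ ((1 / α) * (vol s k / q + ε)) := by
    rw [Real.rpow_mul hQ0.le]
    exact Real.rpow_le_rpow hN0.le hNQ (by positivity)
  calc ∑ p ∈ NA s k (Finset.Icc 1 N), wt w p ≤ C * (N : ℝ) ^ (vol s k / q + ε) *
        S ^ ((q : ℝ) + (1 - 1 / (q : ℝ)) * ((s : ℝ) - k - 1)) := h1
    _ ≤ C * S ^ ((1 / α) * (vol s k / q + ε)) *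
        S ^ ((q : ℝ) + (1 - 1 / (q : ℝ)) * ((s : ℝ) - k - 1)) := by
        apply mul_le_mul_of_nonneg_right _ (by positivity)
        exact mul_le_mul_of_nonneg_left h3 hC
    _ = C * S ^ ((1 / α) * (vol s k / q + ε) +
        ((q : ℝ) + (1 - 1 / (q : ℝ)) * ((s : ℝ) - k - 1))) := by
        rw [mul_assoc, ← Real.rpow_add hQ0]
    _ ≤ _ := by
        apply mul_le_mul_of_nonneg_left _ hC
        apply Real.rpow_le_rpow_of_exponent_le hQ1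
        have e1 : (1 / α) * (vol s k / q + ε) + ((q : ℝ) + (1 - 1 / (q : ℝ)) * ((s : ℝ) - k - 1)) =
            (q + B / q) + (c - Real.sqrt (4 * B + 1)) + ((s : ℝ) - k - 1) := by
          have e2 : (1 / α) * ε = c - Real.sqrt (4 * B + 1) := by
            rw [hε]
            field_simp
          have e3 : B / q = (1 / α) * (vol s k / q) - (1 / (q : ℝ)) * ((s : ℝ) - k - 1) := by
            rw [hB]
            ring
          rw [mul_add, e2, e3]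
          ring
        rw [e1]
        linarith

end Pool.Agent.Run7.h777.VW
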