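import Mathlib
import Pool.Agent.Run7.h777.VA.Seq

/-!
# Vinogradov's system with weights: the mean value as a weighted number of solutions
-/

set_option autoImplicit false

namespace Pool.Agent.Run7.h777.VW

open Finset MeasureTheory Pool.Agent.Run7.h777.VA

/-- `e(θ₁ n + ... + θ_k n^k)` -/
noncomputable def chi (k : ℕ) (n : ℕ) (θ : Fin k → ℝ) : ℂ :=
  Complex.exp (2 * (Real.pi : ℂ) * Complex.I * ∑ j : Fin k, (θ j : ℂ) * (n : ℂ) ^ ((j : ℕ) + 1))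

/-- the exponential sum with coefficients `a` -/
noncomputable def esum (k : ℕ) (A : Finset ℕ) (a : ℕ → ℂ) (θ : Fin k → ℝ) : ℂ :=
  ∑ n ∈ A, a n * chi k n θ

lemma int_one (m : ℤ) : ∫ t in Set.Icc (0 : ℝ) 1,
    Complex.exp (2 * (Real.pi : ℂ) * Complex.I * ((t : ℂ) * m)) = if m = 0 then 1 else 0 := by
  rw [integral_Icc_eq_integral_Ioc, ← intervalIntegral.integral_of_le zero_le_one]
  by_cases hm : m = 0
  · subst hm
    simp
  · rw [if_neg hm]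
    have hc : (2 * (Real.pi : ℂ) * Complex.I * m) ≠ 0 := by
      have h1 : (Real.pi : ℂ) ≠ 0 := by exact_mod_cast Real.pi_ne_zero
      have h2 : (m : ℂ) ≠ 0 := by exact_mod_cast hm
      exact mul_ne_zero (mul_ne_zero (mul_ne_zero two_ne_zero h1) Complex.I_ne_zero) h2
    have h1 : ∀ t : ℝ, Complex.exp (2 * (Real.pi : ℂ) * Complex.I * ((t : ℂ) * m)) =
        Complex.exp ((2 * (Real.pi : ℂ) * Complex.I * m) * t) := by
      intro t
      congr 1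
      ring
    simp only [h1]
    rw [integral_exp_mul_complex hc]
    have h2 : Complex.exp (2 * (Real.pi : ℂ) * Complex.I * m * ((1 : ℝ) : ℂ)) = 1 := by
      rw [Complex.ofReal_one, mul_one]
      have := Complex.exp_int_mul_two_pi_mul_I m
      rw [← this]
      congr 1
      ring
    rw [h2]
    simp

lemma int_pi (k : ℕ) (m : Fin k → ℤ) : ∫ θ in Set.Icc (0 : Fin k → ℝ) 1,
    Complex.exp (2 * (Real.pi : ℂ) * Complex.I * ∑ j, (θ j : ℂ) * m j) =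
      if m = 0 then 1 else 0 := by
  have h1 : (volume.restrict (Set.Icc (0 : Fin k → ℝ) 1)) =
      Measure.pi (fun _ : Fin k => volume.restrict (Set.Icc (0 : ℝ) 1)) := by
    rw [← Measure.restrict_pi_pi, ← volume_pi]
    congr 1
    exact (Set.pi_univ_Icc (0 : Fin k → ℝ) 1).symm
  rw [h1]
  have h2 : ∀ θ : Fin k → ℝ, Complex.exp (2 * (Real.pi : ℂ) * Complex.I * ∑ j, (θ j : ℂ) * m j) =
      ∏ j, Complex.exp (2 * (Real.pi : ℂ) * Complex.I * ((θ j : ℂ) * m j)) := by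
    intro θ
    rw [← Complex.exp_sum, Finset.mul_sum]
  simp only [h2]
  rw [integral_fintype_prod_eq_prod (f := fun j (t : ℝ) =>
    Complex.exp (2 * (Real.pi : ℂ) * Complex.I * ((t : ℂ) * m j)))]
  simp only [int_one]
  by_cases hm : m = 0
  · subst hm
    simp
  · rw [if_neg hm]
    obtain ⟨j, hj⟩ := Function.ne_iff.1 hm
    exact Finset.prod_eq_zero (Finset.mem_univ j) (if_neg hj)

lemma chi_prod (k s : ℕ) (x : Fin s → ℕ) (θ : Fin k → ℝ) :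
    ∏ i, chi k (x i) θ = Complex.exp (2 * (Real.pi : ℂ) * Complex.I *
      ∑ j : Fin k, (θ j : ℂ) * ((∑ i, x i ^ ((j : ℕ) + 1) : ℕ) : ℂ)) := by
  unfold chi
  rw [← Complex.exp_sum, ← Finset.mul_sum, Finset.sum_comm]
  congr 2
  refine Finset.sum_congr rfl fun j _ => ?_
  rw [← Finset.mul_sum]
  push_cast
  rfl

theorem mean (s k : ℕ) (A : Finset ℕ) (a : ℕ → ℂ) :
    ((∫ θ in Set.Icc (0 : Fin k → ℝ) 1, ‖esum k A a θ‖ ^ (2 * s) : ℝ) : ℂ) =
      ∑ p ∈ SA s k A, (∏ i, a (p.1 i)) * (starRingEnd ℂ) (∏ i, a (p.2 i)) := by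
  classical
  set P : Finset (Fin s → ℕ) := Fintype.piFinset fun _ : Fin s => A with hP
  have hpow : ∀ θ, esum k A a θ ^ s = ∑ x ∈ P, (∏ i, a (x i)) * ∏ i, chi k (x i) θ := by
    intro θ
    have h4 := Finset.prod_univ_sum (fun _ : Fin s => A) (fun _ n => a n * chi k n θ)
    rw [Finset.prod_const, Finset.card_univ, Fintype.card_fin] at h4
    unfold esum
    rw [h4]
    refine Finset.sum_congr rfl fun x _ => ?_
    rw [Finset.prod_mul_distrib]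
  have hconj : ∀ (x : Fin s → ℕ) (θ : Fin k → ℝ), (starRingEnd ℂ) (∏ i, chi k (x i) θ) =
      Complex.exp (-(2 * (Real.pi : ℂ) * Complex.I *
      ∑ j : Fin k, (θ j : ℂ) * ((∑ i, x i ^ ((j : ℕ) + 1) : ℕ) : ℂ))) := by
    intro x θ
    rw [chi_prod, ← Complex.exp_conj]
    congr 1
    simp only [map_mul, map_sum, map_natCast, Complex.conj_ofReal, Complex.conj_I, map_ofNat]
    ring
  have hnorm : ∀ θ, ((‖esum k A a θ‖ ^ (2 * s) : ℝ) : ℂ) =
      ∑ p ∈ P ×ˢ P, ((∏ i, a (p.1 i)) * (starRingEnd ℂ) (∏ i, a (p.2 i))) *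
        Complex.exp (2 * (Real.pi : ℂ) * Complex.I * ∑ j : Fin k, (θ j : ℂ) *
          (((∑ i, (p.1 i : ℤ) ^ ((j : ℕ) + 1) - ∑ i, (p.2 i : ℤ) ^ ((j : ℕ) + 1) : ℤ)) : ℂ)) := by
    intro θ
    have h1 : ((‖esum k A a θ‖ ^ (2 * s) : ℝ) : ℂ) =
        esum k A a θ ^ s * (starRingEnd ℂ) (esum k A a θ ^ s) := by
      rw [Complex.mul_conj, Complex.normSq_eq_norm_sq, norm_pow, ← pow_mul, mul_comm s 2]
    rw [h1, hpow, map_sum, Finset.sum_mul_sum, ← Finset.sum_product']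
    refine Finset.sum_congr rfl fun p _ => ?_
    rw [map_mul, hconj, chi_prod]
    have h2 : Complex.exp (2 * (Real.pi : ℂ) * Complex.I * ∑ j : Fin k, (θ j : ℂ) *
          (((∑ i, (p.1 i : ℤ) ^ ((j : ℕ) + 1) - ∑ i, (p.2 i : ℤ) ^ ((j : ℕ) + 1) : ℤ)) : ℂ)) =
        Complex.exp (2 * (Real.pi : ℂ) * Complex.I *
          ∑ j : Fin k, (θ j : ℂ) * ((∑ i, p.1 i ^ ((j : ℕ) + 1) : ℕ) : ℂ)) *
        Complex.exp (-(2 * (Real.pi : ℂ) * Complex.I *
          ∑ j : Fin k, (θ j : ℂ) * ((∑ i, p.2 i ^ ((j : ℕ) + 1) : ℕ) : ℂ))) := by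
      rw [← Complex.exp_add, ← mul_neg, ← mul_add, ← Finset.sum_neg_distrib, ← Finset.sum_add_distrib]
      congr 2
      refine Finset.sum_congr rfl fun j _ => ?_
      push_cast
      ring
    rw [h2]
    ring
  rw [← integral_complex_ofReal]
  have hfun : (fun θ => ((‖esum k A a θ‖ ^ (2 * s) : ℝ) : ℂ)) = fun θ =>
      ∑ p ∈ P ×ˢ P, ((∏ i, a (p.1 i)) * (starRingEnd ℂ) (∏ i, a (p.2 i))) *
        Complex.exp (2 * (Real.pi : ℂ) * Complex.I * ∑ j : Fin k, (θ j : ℂ) *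
          (((∑ i, (p.1 i : ℤ) ^ ((j : ℕ) + 1) - ∑ i, (p.2 i : ℤ) ^ ((j : ℕ) + 1) : ℤ)) : ℂ)) :=
    funext hnorm
  rw [show (∫ θ in Set.Icc (0 : Fin k → ℝ) 1, ((‖esum k A a θ‖ ^ (2 * s) : ℝ) : ℂ)) =
    ∫ θ in Set.Icc (0 : Fin k → ℝ) 1, (fun θ => ((‖esum k A a θ‖ ^ (2 * s) : ℝ) : ℂ)) θ from rfl, hfun]
  rw [integral_finsetSum]
  · have h3 : ∀ p ∈ P ×ˢ P, ∫ θ in Set.Icc (0 : Fin k → ℝ) 1,
        ((∏ i, a (p.1 i)) * (starRingEnd ℂ) (∏ i, a (p.2 i))) *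
        Complex.exp (2 * (Real.pi : ℂ) * Complex.I * ∑ j : Fin k, (θ j : ℂ) *
          (((∑ i, (p.1 i : ℤ) ^ ((j : ℕ) + 1) - ∑ i, (p.2 i : ℤ) ^ ((j : ℕ) + 1) : ℤ)) : ℂ)) =
        if (∀ j : Fin k, ∑ i : Fin s, p.1 i ^ (j.val + 1) = ∑ i : Fin s, p.2 i ^ (j.val + 1)) then
          ((∏ i, a (p.1 i)) * (starRingEnd ℂ) (∏ i, a (p.2 i))) else 0 := by
      intro p _
      rw [integral_const_mul, int_pi k (fun j => ∑ i, (p.1 i : ℤ) ^ ((j : ℕ) + 1) -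
        ∑ i, (p.2 i : ℤ) ^ ((j : ℕ) + 1))]
      have h4 : ((fun j : Fin k => ∑ i, (p.1 i : ℤ) ^ ((j : ℕ) + 1) -
          ∑ i, (p.2 i : ℤ) ^ ((j : ℕ) + 1)) = 0) ↔
          (∀ j : Fin k, ∑ i : Fin s, p.1 i ^ (j.val + 1) = ∑ i : Fin s, p.2 i ^ (j.val + 1)) := by
        rw [funext_iff]
        refine forall_congr' fun j => ?_
        rw [Pi.zero_apply, sub_eq_zero]
        constructor
        · intro h
          exact_mod_cast h
        · intro h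
          exact_mod_cast h
      by_cases h5 : (∀ j : Fin k, ∑ i : Fin s, p.1 i ^ (j.val + 1) = ∑ i : Fin s, p.2 i ^ (j.val + 1))
      · rw [if_pos h5, if_pos (h4.2 h5), mul_one]
      · rw [if_neg h5, if_neg (fun h => h5 (h4.1 h)), mul_zero]
    rw [Finset.sum_congr rfl h3, ← Finset.sum_filter]
    rfl
  · intro p _
    apply Continuous.integrableOn_Icc
    fun_prop

end Pool.Agent.Run7.h777.VW
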