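import Pool.Agent.Run7.h777.VW.Restr

/-!
# Vinogradov's system: the asymptotic formula for spread coefficients
-/

set_option autoImplicit false

namespace Pool.Agent.Run7.h777.VW

open Finset MeasureTheory Pool.Agent.Run7.h777.VA

/-- the diagonal pairs, with arbitrary weights of size at most `h` -/
theorem diagH (s : ℕ) (hs : 1 ≤ s) (A : Finset ℕ) (v : ℕ → ℝ) (hv : ∀ z, 0 ≤ v z) (h : ℝ)
    (hh : 0 ≤ h) (hvh : ∀ z, v z ≤ h) :
  |(∑ p ∈ Dg s A, ∏ i, v (p.1 i)) - (s.factorial : ℝ) * (∑ z ∈ A, v z) ^ s| ≤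
      (s.factorial : ℝ) * (s : ℝ) ^ 2 * (h * (∑ z ∈ A, v z) ^ (s - 1)) := by
  classical
  rcases hh.eq_or_lt with h0 | h0
  · have hv0 : ∀ z, v z = 0 := fun z => le_antisymm (by rw [h0]; exact hvh z) (hv z)
    have h1 : ∑ p ∈ Dg s A, ∏ i, v (p.1 i) = 0 := by
      apply Finset.sum_eq_zero
      intro p _
      exact Finset.prod_eq_zero (Finset.mem_univ ⟨0, hs⟩) (hv0 _)
    have h2 : ∑ z ∈ A, v z = 0 := Finset.sum_eq_zero fun z _ => hv0 z
    rw [h1, h2, zero_pow (by omega), ← h0]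
    simp
  · have h1 := diagW s hs A (fun z => v z / h) (fun z => div_nonneg (hv z) hh)
      (fun z => (div_le_one h0).2 (hvh z))
    have h2 : ∑ z ∈ A, v z / h = (∑ z ∈ A, v z) / h := by rw [Finset.sum_div]
    have h3 : ∑ p ∈ Dg s A, ∏ i, v (p.1 i) / h = (∑ p ∈ Dg s A, ∏ i, v (p.1 i)) / h ^ s := by
      rw [Finset.sum_div]
      refine Finset.sum_congr rfl fun p _ => ?_
      rw [Finset.prod_div_distrib, Finset.prod_const, Finset.card_univ, Fintype.card_fin]
    have h1' : |(∑ p ∈ Dg s A, ∏ i, v (p.1 i) / h) -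
        (s.factorial : ℝ) * (∑ z ∈ A, v z / h) ^ s| ≤
        (s.factorial : ℝ) * (s : ℝ) ^ 2 * (∑ z ∈ A, v z / h) ^ (s - 1) := by
      unfold Dg
      convert h1
    rw [h2, h3, div_pow, div_pow, ← mul_div_assoc, ← sub_div, abs_div,
      abs_of_pos (pow_pos h0 s), div_le_iff₀ (pow_pos h0 s)] at h1'
    refine h1'.trans (le_of_eq ?_)
    obtain ⟨n, rfl⟩ : ∃ n, s = n + 1 := ⟨s - 1, by omega⟩
    rw [Nat.add_sub_cancel]
    have := h0.ne'
    field_simp
    ring

theorem asymL2 (s k q : ℕ) (hks : k < s) (hq : 1 ≤ q) (α : ℝ) (hα : 0 < α) (hα1 : α ≤ 1)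
    (h : vol s k / q + (1 + α) / 2 * ((q : ℝ) + (1 - 1 / (q : ℝ)) * ((s : ℝ) - k - 1)) < α * s) :
    ∃ δ : ℝ, 0 < δ ∧ ∃ C : ℝ, ∀ N : ℕ, 1 ≤ N → ∀ (a : ℕ → ℂ) (H : ℝ),
      (∀ n ∈ Finset.Icc 1 N, ‖a n‖ ≤ H) →
      (N : ℝ) ^ α * H ^ 2 ≤ ∑ n ∈ Finset.Icc 1 N, ‖a n‖ ^ 2 →
      |(∫ θ in Set.Icc (0 : Fin k → ℝ) 1, ‖esum k (Finset.Icc 1 N) a θ‖ ^ (2 * s)) -
        s.factorial * (∑ n ∈ Finset.Icc 1 N, ‖a n‖ ^ 2) ^ s| ≤
        C * (N : ℝ) ^ (-δ) * (∑ n ∈ Finset.Icc 1 N, ‖a n‖ ^ 2) ^ s := by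
  classical
  have hks' : (k : ℝ) + 1 ≤ s := by exact_mod_cast hks
  have hk0 : (0 : ℝ) ≤ k := Nat.cast_nonneg k
  have hq0 : (0 : ℝ) < q := by exact_mod_cast hq
  have hq1 : (1 : ℝ) ≤ q := by exact_mod_cast hq
  set E : ℝ := (q : ℝ) + (1 - 1 / (q : ℝ)) * ((s : ℝ) - k - 1) with hE
  have hE0 : 0 ≤ E := by
    have h1 : 1 / (q : ℝ) ≤ 1 := by
      rw [div_le_one (by linarith)]
      exact hq1
    have h2 : 0 ≤ (1 - 1 / (q : ℝ)) * ((s : ℝ) - k - 1) := mul_nonneg (by linarith) (by linarith)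
    rw [hE]
    linarith
  have hv0 : 0 ≤ vol s k / q := by
    apply div_nonneg _ hq0.le
    unfold vol
    apply div_nonneg _ (by norm_num)
    apply mul_nonneg <;> linarith
  set g : ℝ := α * s - (vol s k / q + (1 + α) / 2 * E) with hg
  have hg0 : 0 < g := by
    rw [hg]
    linarith
  have hEs : E < 2 * s := by
    have h1 : (1 + α) / 2 * E < α * s := by linarith
    have h2 : α * E ≤ (1 + α) / 2 * E := mul_le_mul_of_nonneg_right (by linarith) hE0
    have h3 : α * E < α * s := by linarith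
    have h4 : E < s := lt_of_mul_lt_mul_left h3 hα.le
    linarith
  obtain ⟨C, hC, hna⟩ := na_S s k q hks hq (g / 2) (by positivity)
  refine ⟨min (g / 2) α, lt_min (by positivity) hα,
    C + (s.factorial : ℝ) * (s : ℝ) ^ 2, fun N hN a H hH hS => ?_⟩
  set δ : ℝ := min (g / 2) α with hδ
  have hN1 : (1 : ℝ) ≤ N := by exact_mod_cast hN
  have hN0 : (0 : ℝ) < N := by linarith
  have hH0 : 0 ≤ H := (norm_nonneg _).trans (hH 1 (Finset.mem_Icc.2 ⟨le_rfl, hN⟩))
  set S2 : ℝ := ∑ n ∈ Finset.Icc 1 N, ‖a n‖ ^ 2 with hS2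
  have hS20 : 0 ≤ S2 := Finset.sum_nonneg fun n _ => by positivity
  -- weights
  obtain ⟨w, hw⟩ : ∃ w : ℕ → ℝ, w = fun n => if n ∈ Finset.Icc 1 N then ‖a n‖ else 0 := ⟨_, rfl⟩
  have hwI : ∀ n ∈ Finset.Icc 1 N, w n = ‖a n‖ := fun n hn => by rw [hw]; exact if_pos hn
  have hw0 : ∀ n, 0 ≤ w n := by
    intro n
    rw [hw]
    simp only
    split_ifs
    · exact norm_nonneg _
    · exact le_rfl
  have hwH : ∀ n, w n ≤ H := by
    intro n
    by_cases hn : n ∈ Finset.Icc 1 N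
    · rw [hwI n hn]
      exact hH n hn
    · rw [hw]
      simp only
      rw [if_neg hn]
      exact hH0
  have hd := diagH s (by omega) (Finset.Icc 1 N) (fun n => w n ^ 2) (fun n => by positivity)
    (H ^ 2) (by positivity) (fun n => pow_le_pow_left₀ (hw0 n) (hwH n) 2)
  have h5 : ∑ n ∈ Finset.Icc 1 N, w n ^ 2 = S2 :=
    Finset.sum_congr rfl fun n hn => by rw [hwI n hn]
  rw [h5] at hd
  have h7 : ∑ p ∈ Dg s (Finset.Icc 1 N), ∏ i, ‖a (p.1 i)‖ ^ 2 =
      ∑ p ∈ Dg s (Finset.Icc 1 N), ∏ i, w (p.1 i) ^ 2 := by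
    refine Finset.sum_congr rfl fun p hp => ?_
    rw [Dg, Finset.mem_filter, Finset.mem_product, Fintype.mem_piFinset] at hp
    obtain ⟨⟨h3, _⟩, _⟩ := hp
    exact Finset.prod_congr rfl fun i _ => by rw [hwI _ (h3 i)]
  have hnear := mean_near s k (Finset.Icc 1 N) a
  rw [h7] at hnear
  have h3 : ∑ p ∈ NA s k (Finset.Icc 1 N), wt (fun n => ‖a n‖) p =
      ∑ p ∈ NA s k (Finset.Icc 1 N), wt w p := by
    refine Finset.sum_congr rfl fun p hp => ?_
    rw [NA, Finset.mem_filter, SA, Finset.mem_filter, Finset.mem_product,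
      Fintype.mem_piFinset, Fintype.mem_piFinset] at hp
    obtain ⟨⟨⟨h3, h4⟩, -⟩, -⟩ := hp
    unfold wt
    congr 1
    · exact Finset.prod_congr rfl fun i _ => (hwI _ (h3 i)).symm
    · exact Finset.prod_congr rfl fun i _ => (hwI _ (h4 i)).symm
  rw [h3] at hnear
  have hHS : H ^ 2 ≤ (N : ℝ) ^ (-α) * S2 := by
    rw [Real.rpow_neg hN0.le]
    have h8 : (0 : ℝ) < (N : ℝ) ^ α := by positivity
    rw [inv_mul_eq_div, le_div_iff₀ h8]
    linarith
  have hNδ : (N : ℝ) ^ (-α) ≤ (N : ℝ) ^ (-δ) := by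
    apply Real.rpow_le_rpow_of_exponent_le hN1
    have := min_le_right (g / 2) α
    linarith
  -- diagonal error
  have hdiag : H ^ 2 * S2 ^ (s - 1) ≤ (N : ℝ) ^ (-δ) * S2 ^ s := by
    have h8 : S2 ^ s = S2 * S2 ^ (s - 1) := by
      rw [← pow_succ']
      congr 1
      omega
    rw [h8]
    have h9 : 0 ≤ S2 ^ (s - 1) := by positivity
    calc H ^ 2 * S2 ^ (s - 1) ≤ ((N : ℝ) ^ (-α) * S2) * S2 ^ (s - 1) :=
          mul_le_mul_of_nonneg_right hHS h9
      _ ≤ ((N : ℝ) ^ (-δ) * S2) * S2 ^ (s - 1) := by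
          apply mul_le_mul_of_nonneg_right _ h9
          exact mul_le_mul_of_nonneg_right hNδ hS20
      _ = _ := by ring
  -- non-diagonal
  have hnon : ∑ p ∈ NA s k (Finset.Icc 1 N), wt w p ≤ C * (N : ℝ) ^ (-δ) * S2 ^ s := by
    rcases hH0.eq_or_lt with hH00 | hHpos
    · have hz : ∀ n, w n = 0 := fun n => le_antisymm (by rw [hH00]; exact hwH n) (hw0 n)
      have h8 : ∑ p ∈ NA s k (Finset.Icc 1 N), wt w p = 0 := by
        apply Finset.sum_eq_zero
        intro p _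
        unfold wt
        rw [Finset.prod_eq_zero (Finset.mem_univ (⟨0, by omega⟩ : Fin s)) (hz _), zero_mul]
      rw [h8]
      positivity
    · set S1 : ℝ := ∑ n ∈ Finset.Icc 1 N, w n with hS1
      have hS10 : 0 ≤ S1 := Finset.sum_nonneg fun n _ => hw0 n
      have hS12 : S2 ≤ H * S1 := by
        rw [← h5, hS1, Finset.mul_sum]
        apply Finset.sum_le_sum
        intro n _
        have := mul_le_mul_of_nonneg_right (hwH n) (hw0 n)
        nlinarith
      have hS1H : 1 ≤ S1 / H := by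
        rw [le_div_iff₀ hHpos, one_mul]
        have h8 : H ^ 2 ≤ H * S1 := by
          have := mul_le_mul_of_nonneg_right (Real.one_le_rpow hN1 hα.le) (by positivity : 0 ≤ H ^ 2)
          linarith
        nlinarith
      have h9 := hna N hN (fun n => w n / H) (fun n => div_nonneg (hw0 n) hH0)
        (fun n => (div_le_one hHpos).2 (hwH n)) (by rw [← Finset.sum_div]; exact hS1H)
      rw [← Finset.sum_div, ← hS1] at h9
      have h10 : ∑ p ∈ NA s k (Finset.Icc 1 N), wt (fun n => w n / H) p =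
          (∑ p ∈ NA s k (Finset.Icc 1 N), wt w p) / H ^ (2 * s) := by
        rw [Finset.sum_div]
        refine Finset.sum_congr rfl fun p _ => ?_
        unfold wt
        rw [Finset.prod_div_distrib, Finset.prod_div_distrib, Finset.prod_const, Finset.card_univ,
          Fintype.card_fin, div_mul_div_comm, ← pow_add, two_mul]
      rw [h10, div_le_iff₀ (pow_pos hHpos _)] at h9
      refine h9.trans ?_
      -- Cauchy-Schwarz
      have hCS : S1 ^ 2 ≤ N * S2 := by
        have := sq_sum_le_card_mul_sum_sq (s := Finset.Icc 1 N) (f := w)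
        rw [Nat.card_Icc, Nat.add_sub_cancel, h5] at this
        exact this
      have hCS' : (S1 / H) ^ E ≤ ((N : ℝ) * S2 / H ^ 2) ^ (E / 2) := by
        have h11 : (S1 / H) ^ 2 ≤ (N : ℝ) * S2 / H ^ 2 := by
          rw [div_pow]
          exact div_le_div_of_nonneg_right hCS (by positivity)
        have h12 := Real.rpow_le_rpow (by positivity) h11 (by positivity : 0 ≤ E / 2)
        rw [← Real.rpow_natCast (S1 / H) 2, ← Real.rpow_mul (by positivity)] at h12
        have : ((2 : ℕ) : ℝ) * (E / 2) = E := by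
          push_cast
          ring
        rwa [this] at h12
      set T : ℝ := S2 / H ^ 2 with hT
      have hTN : (N : ℝ) ^ α ≤ T := by
        rw [hT, le_div_iff₀ (by positivity)]
        exact hS
      have hT0 : 0 < T := lt_of_lt_of_le (by positivity) hTN
      have hTE : T ^ (E / 2 - s) ≤ (N : ℝ) ^ (α * (E / 2 - s)) := by
        rw [Real.rpow_mul hN0.le]
        apply Real.rpow_le_rpow_of_nonpos (by positivity) hTN
        linarith
      have e1 : (N : ℝ) * S2 / H ^ 2 = N * T := by rw [hT]; ring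
      rw [e1] at hCS'
      calc C * (N : ℝ) ^ (vol s k / q + g / 2) * (S1 / H) ^ E * H ^ (2 * s)
          ≤ C * (N : ℝ) ^ (vol s k / q + g / 2) * ((N * T) ^ (E / 2)) * H ^ (2 * s) := by
            apply mul_le_mul_of_nonneg_right _ (by positivity)
            exact mul_le_mul_of_nonneg_left hCS' (by positivity)
        _ = C * ((N : ℝ) ^ (vol s k / q + g / 2) * (N : ℝ) ^ (E / 2)) * (T ^ (E / 2 - s) *
              (T * H ^ 2) ^ s) := by
            rw [Real.mul_rpow hN0.le hT0.le, Real.rpow_sub hT0, Real.rpow_natCast, mul_pow, pow_mul]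
            field_simp
        _ ≤ C * ((N : ℝ) ^ (vol s k / q + g / 2) * (N : ℝ) ^ (E / 2)) *
              ((N : ℝ) ^ (α * (E / 2 - s)) * (T * H ^ 2) ^ s) := by
            apply mul_le_mul_of_nonneg_left _ (by positivity)
            exact mul_le_mul_of_nonneg_right hTE (by positivity)
        _ = C * (N : ℝ) ^ (-(g / 2)) * S2 ^ s := by
            have e2 : T * H ^ 2 = S2 := by
              rw [hT]
              field_simp
            rw [e2, ← Real.rpow_add hN0]
            have e3 : (N : ℝ) ^ (vol s k / q + g / 2 + E / 2) * (N : ℝ) ^ (α * (E / 2 - s)) =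
                (N : ℝ) ^ (-(g / 2)) := by
              rw [← Real.rpow_add hN0]
              congr 1
              rw [hg]
              ring
            rw [← e3]
            ring
        _ ≤ C * (N : ℝ) ^ (-δ) * S2 ^ s := by
            apply mul_le_mul_of_nonneg_right _ (by positivity)
            apply mul_le_mul_of_nonneg_left _ hC
            apply Real.rpow_le_rpow_of_exponent_le hN1
            have := min_le_left (g / 2) α
            linarith
  have hdiag' : (s.factorial : ℝ) * (s : ℝ) ^ 2 * (H ^ 2 * S2 ^ (s - 1)) ≤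
      (s.factorial : ℝ) * (s : ℝ) ^ 2 * ((N : ℝ) ^ (-δ) * S2 ^ s) :=
    mul_le_mul_of_nonneg_left hdiag (by positivity)
  have hfin : (C + (s.factorial : ℝ) * (s : ℝ) ^ 2) * (N : ℝ) ^ (-δ) * S2 ^ s =
      C * (N : ℝ) ^ (-δ) * S2 ^ s + (s.factorial : ℝ) * (s : ℝ) ^ 2 * ((N : ℝ) ^ (-δ) * S2 ^ s) := by
    ring
  rw [hfin]
  rw [abs_le] at hnear hd ⊢
  constructor
  · linarith [hnear.1, hnear.2, hd.1, hd.2]
  · linarith [hnear.1, hnear.2, hd.1, hd.2]

end Pool.Agent.Run7.h777.VW
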