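import Pool.Agent.Run7.h777.VW.Fin
import Pool.Agent.Run7.h777.VW.Int

/-!
# Vinogradov's system with weights: asymptotic formulas for sets and for bounded weights
-/

set_option autoImplicit false

namespace Pool.Agent.Run7.h777.VW

open Finset MeasureTheory Pool.Agent.Run7.h777.VA

open scoped Classical in
/-- the diagonal pairs -/
noncomputable def Dg (s : ℕ) (A : Finset ℕ) : Finset ((Fin s → ℕ) × (Fin s → ℕ)) :=
  ((Fintype.piFinset fun _ : Fin s => A) ×ˢ (Fintype.piFinset fun _ : Fin s => A)).filter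
    (fun p : (Fin s → ℕ) × (Fin s → ℕ) => ∃ σ : Equiv.Perm (Fin s), p.2 = p.1 ∘ σ)

lemma Dg_eq (s k : ℕ) (A : Finset ℕ) [DecidablePred fun p : (Fin s → ℕ) × (Fin s → ℕ) =>
    ∃ σ : Equiv.Perm (Fin s), p.2 = p.1 ∘ σ] :
    Dg s A = (SA s k A).filter (fun p => ∃ σ : Equiv.Perm (Fin s), p.2 = p.1 ∘ σ) := by
  classical
  ext p
  simp only [Dg, SA, Finset.mem_filter]
  constructor
  · rintro ⟨hp, σ, hσ⟩
    refine ⟨⟨hp, fun j => ?_⟩, σ, hσ⟩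
    rw [hσ]
    exact (Equiv.sum_comp σ (fun i => p.1 i ^ (j.val + 1))).symm
  · rintro ⟨⟨hp, -⟩, hσ⟩
    exact ⟨hp, hσ⟩

lemma split_sum {M : Type*} [AddCommMonoid M] (s k : ℕ) (A : Finset ℕ)
    (G : (Fin s → ℕ) × (Fin s → ℕ) → M) :
    ∑ p ∈ SA s k A, G p = ∑ p ∈ Dg s A, G p + ∑ p ∈ NA s k A, G p := by
  classical
  rw [Dg_eq s k A, NA]
  have := Finset.sum_filter_add_sum_filter_not (SA s k A)
    (fun p => ∃ σ : Equiv.Perm (Fin s), p.2 = p.1 ∘ σ) G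
  convert this.symm

/-- the mean value, split -/
theorem mean_split (s k : ℕ) (A : Finset ℕ) (a : ℕ → ℂ) :
    ((∫ θ in Set.Icc (0 : Fin k → ℝ) 1, ‖esum k A a θ‖ ^ (2 * s) : ℝ) : ℂ) =
      ((∑ p ∈ Dg s A, ∏ i, ‖a (p.1 i)‖ ^ 2 : ℝ) : ℂ) +
      ∑ p ∈ NA s k A, (∏ i, a (p.1 i)) * (starRingEnd ℂ) (∏ i, a (p.2 i)) := by
  rw [mean, split_sum]
  congr 1
  rw [Complex.ofReal_sum]
  refine Finset.sum_congr rfl fun p hp => ?_
  rw [Dg, Finset.mem_filter] at hp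
  obtain ⟨_, σ, hσ⟩ := hp
  rw [hσ]
  have h1 : ∏ i, a ((p.1 ∘ σ) i) = ∏ i, a (p.1 i) := Equiv.prod_comp σ (fun i => a (p.1 i))
  rw [h1, Complex.mul_conj, Complex.normSq_eq_norm_sq, norm_prod, Finset.prod_pow]

/-- the distance from the diagonal part -/
theorem mean_near (s k : ℕ) (A : Finset ℕ) (a : ℕ → ℂ) :
    |(∫ θ in Set.Icc (0 : Fin k → ℝ) 1, ‖esum k A a θ‖ ^ (2 * s)) -
      ∑ p ∈ Dg s A, ∏ i, ‖a (p.1 i)‖ ^ 2| ≤ ∑ p ∈ NA s k A, wt (fun n => ‖a n‖) p := by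
  have h1 := mean_split s k A a
  have h2 : (((∫ θ in Set.Icc (0 : Fin k → ℝ) 1, ‖esum k A a θ‖ ^ (2 * s)) -
      ∑ p ∈ Dg s A, ∏ i, ‖a (p.1 i)‖ ^ 2 : ℝ) : ℂ) =
      ∑ p ∈ NA s k A, (∏ i, a (p.1 i)) * (starRingEnd ℂ) (∏ i, a (p.2 i)) := by
    rw [Complex.ofReal_sub, h1]
    ring
  rw [← Real.norm_eq_abs, ← Complex.norm_real, h2]
  refine (norm_sum_le _ _).trans (le_of_eq ?_)
  refine Finset.sum_congr rfl fun p _ => ?_
  rw [norm_mul, RCLike.norm_conj, norm_prod, norm_prod]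
  rfl

lemma diag_up (s : ℕ) (A : Finset ℕ) (v : ℕ → ℝ) (hv : ∀ z, 0 ≤ v z) :
    ∑ p ∈ Dg s A, ∏ i, v (p.1 i) ≤ s.factorial * (∑ z ∈ A, v z) ^ s := by
  classical
  have hnn : ∀ x : Fin s → ℕ, 0 ≤ ∏ i, v (x i) := fun x => Finset.prod_nonneg fun i _ => hv _
  have hPsum : ∑ x ∈ Fintype.piFinset fun _ : Fin s => A, ∏ i, v (x i) = (∑ z ∈ A, v z) ^ s := by
    have h4 := Finset.prod_univ_sum (fun _ : Fin s => A) (fun _ z => v z)
    rw [← h4, Finset.prod_const, Finset.card_univ, Fintype.card_fin]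
  have h1 : Dg s A ⊆ ((univ : Finset (Equiv.Perm (Fin s))) ×ˢ
      (Fintype.piFinset fun _ : Fin s => A)).image (fun q => (q.2, q.2 ∘ q.1)) := by
    intro p hp
    rw [Dg, mem_filter, mem_product] at hp
    obtain ⟨⟨h2, _⟩, σ, h3⟩ := hp
    rw [mem_image]
    exact ⟨(σ, p.1), mem_product.2 ⟨mem_univ _, h2⟩, Prod.ext rfl h3.symm⟩
  refine (cover_sum (Dg s A) _ _ (fun p => ∏ i, v (p.1 i)) (fun p => hnn p.1) h1).trans ?_
  rw [Finset.sum_product]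
  simp only
  rw [Finset.sum_const, card_univ, Fintype.card_perm, Fintype.card_fin, nsmul_eq_mul, hPsum]

/-- an upper bound for the mean value in terms of the number of non-diagonal solutions -/
theorem mean_up (s k : ℕ) (A : Finset ℕ) (a : ℕ → ℂ) (H : ℝ) (hH : ∀ n ∈ A, ‖a n‖ ≤ H) :
    (∫ θ in Set.Icc (0 : Fin k → ℝ) 1, ‖esum k A a θ‖ ^ (2 * s)) ≤
      s.factorial * (∑ n ∈ A, ‖a n‖ ^ 2) ^ s + H ^ (2 * s) * ((NA s k A).card : ℝ) := by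
  have h1 := mean_near s k A a
  have h2 := diag_up s A (fun n => ‖a n‖ ^ 2) (fun n => by positivity)
  have h3 : ∑ p ∈ NA s k A, wt (fun n => ‖a n‖) p ≤ H ^ (2 * s) * ((NA s k A).card : ℝ) := by
    calc ∑ p ∈ NA s k A, wt (fun n => ‖a n‖) p ≤ ∑ p ∈ NA s k A, H ^ (2 * s) := by
          apply Finset.sum_le_sum
          intro p hp
          rw [NA, Finset.mem_filter, SA, Finset.mem_filter, Finset.mem_product,
            Fintype.mem_piFinset, Fintype.mem_piFinset] at hp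
          obtain ⟨⟨⟨h3, h4⟩, -⟩, -⟩ := hp
          have h5 : ∀ x : Fin s → ℕ, (∀ i, x i ∈ A) → ∏ i, ‖a (x i)‖ ≤ H ^ s := by
            intro x hx
            calc ∏ i, ‖a (x i)‖ ≤ ∏ i : Fin s, H :=
                  Finset.prod_le_prod (fun i _ => norm_nonneg _) (fun i _ => hH _ (hx i))
              _ = H ^ s := by rw [Finset.prod_const, Finset.card_univ, Fintype.card_fin]
          have h6 : 0 ≤ ∏ i, ‖a (p.2 i)‖ := Finset.prod_nonneg fun i _ => norm_nonneg _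
          have h7 : 0 ≤ ∏ i, ‖a (p.1 i)‖ := Finset.prod_nonneg fun i _ => norm_nonneg _
          calc wt (fun n => ‖a n‖) p ≤ H ^ s * H ^ s :=
                mul_le_mul (h5 _ h3) (h5 _ h4) h6 (h7.trans (h5 _ h3))
            _ = H ^ (2 * s) := by rw [← pow_add, two_mul]
      _ = _ := by
          rw [Finset.sum_const, nsmul_eq_mul, mul_comm]
  rw [abs_le] at h1
  linarith [h1.2]

/-- bounded weights: the asymptotic formula -/
theorem asymW (s k : ℕ) (hks : k < s) (α : ℝ) (hα : 0 < α) (hα1 : α ≤ 1) (c : ℝ) (hc : 0 < c)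
    (hkc : (k : ℝ) ≤ c)
    (h : 2 * ((s : ℝ) - k) * (s + k + 1) < α * (c ^ 2 + 4 * (s - k) - 5)) :
    ∃ C : ℝ, ∀ N : ℕ, 1 ≤ N → ∀ a : ℕ → ℂ, (∀ n ∈ Finset.Icc 1 N, ‖a n‖ ≤ 1) →
      (N : ℝ) ^ α ≤ ∑ n ∈ Finset.Icc 1 N, ‖a n‖ →
      |(∫ θ in Set.Icc (0 : Fin k → ℝ) 1, ‖esum k (Finset.Icc 1 N) a θ‖ ^ (2 * s)) -
        s.factorial * (∑ n ∈ Finset.Icc 1 N, ‖a n‖ ^ 2) ^ s| ≤
        C * (∑ n ∈ Finset.Icc 1 N, ‖a n‖) ^ (c + ((s : ℝ) - k - 1)) := by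
  classical
  have hks' : (k : ℝ) + 1 ≤ s := by exact_mod_cast hks
  obtain ⟨C3, hC3, h6⟩ := na_alpha s k hks α hα hα1 c hc h
  refine ⟨C3 + (s.factorial : ℝ) * (s : ℝ) ^ 2, fun N hN a ha hS => ?_⟩
  have hN1 : (1 : ℝ) ≤ N := by exact_mod_cast hN
  set S : ℝ := ∑ n ∈ Finset.Icc 1 N, ‖a n‖ with hSdef
  have hS1 : (1 : ℝ) ≤ S := (Real.one_le_rpow hN1 hα.le).trans hS
  obtain ⟨w, hw⟩ : ∃ w : ℕ → ℝ, w = fun n => if n ∈ Finset.Icc 1 N then ‖a n‖ else 0 := ⟨_, rfl⟩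
  have hwI : ∀ n ∈ Finset.Icc 1 N, w n = ‖a n‖ := fun n hn => by rw [hw]; exact if_pos hn
  have hw0 : ∀ n, 0 ≤ w n := by
    intro n
    rw [hw]
    simp only
    split_ifs
    · exact norm_nonneg _
    · exact le_rfl
  have hw1 : ∀ n, w n ≤ 1 := by
    intro n
    by_cases hn : n ∈ Finset.Icc 1 N
    · rw [hwI n hn]
      exact ha n hn
    · rw [hw]
      simp only
      rw [if_neg hn]
      exact zero_le_one
  have hwS : ∑ n ∈ Finset.Icc 1 N, w n = S := Finset.sum_congr rfl hwI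
  have h1 := h6 N hN w hw0 hw1 (by rw [hwS]; exact hS)
  rw [hwS] at h1
  have h2 := mean_near s k (Finset.Icc 1 N) a
  have h3 : ∑ p ∈ NA s k (Finset.Icc 1 N), wt (fun n => ‖a n‖) p =
      ∑ p ∈ NA s k (Finset.Icc 1 N), wt w p := by
    refine Finset.sum_congr rfl fun p hp => ?_
    rw [NA, Finset.mem_filter, SA, Finset.mem_filter, Finset.mem_product,
      Fintype.mem_piFinset, Fintype.mem_piFinset] at hp
    obtain ⟨⟨⟨h3, h4⟩, -⟩, -⟩ := hp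
    unfold wt
    congr 1
    · exact Finset.prod_congr rfl fun i _ => (hwI _ (h3 i)).symm
    · exact Finset.prod_congr rfl fun i _ => (hwI _ (h4 i)).symm
  have h4 := diagW s (by omega) (Finset.Icc 1 N) (fun n => w n ^ 2) (fun n => by positivity)
    (fun n => pow_le_one₀ (hw0 n) (hw1 n))
  have h5 : ∑ n ∈ Finset.Icc 1 N, w n ^ 2 = ∑ n ∈ Finset.Icc 1 N, ‖a n‖ ^ 2 :=
    Finset.sum_congr rfl fun n hn => by rw [hwI n hn]
  have h7 : ∑ p ∈ Dg s (Finset.Icc 1 N), ∏ i, ‖a (p.1 i)‖ ^ 2 =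
      ∑ p ∈ Dg s (Finset.Icc 1 N), ∏ i, w (p.1 i) ^ 2 := by
    refine Finset.sum_congr rfl fun p hp => ?_
    rw [Dg, Finset.mem_filter, Finset.mem_product, Fintype.mem_piFinset] at hp
    obtain ⟨⟨h3, _⟩, _⟩ := hp
    exact Finset.prod_congr rfl fun i _ => by rw [hwI _ (h3 i)]
  have h4' : |(∑ p ∈ Dg s (Finset.Icc 1 N), ∏ i, w (p.1 i) ^ 2) -
      (s.factorial : ℝ) * (∑ n ∈ Finset.Icc 1 N, w n ^ 2) ^ s| ≤
      (s.factorial : ℝ) * (s : ℝ) ^ 2 * (∑ n ∈ Finset.Icc 1 N, w n ^ 2) ^ (s - 1) := by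
    unfold Dg
    convert h4
  rw [h5] at h4'
  rw [h3] at h2
  rw [h7] at h2
  have h8 : ∑ n ∈ Finset.Icc 1 N, ‖a n‖ ^ 2 ≤ S := by
    rw [hSdef]
    apply Finset.sum_le_sum
    intro n hn
    have := mul_le_mul_of_nonneg_left (ha n hn) (norm_nonneg (a n))
    nlinarith
  have h80 : 0 ≤ ∑ n ∈ Finset.Icc 1 N, ‖a n‖ ^ 2 := Finset.sum_nonneg fun n _ => by positivity
  have h9 : (∑ n ∈ Finset.Icc 1 N, ‖a n‖ ^ 2) ^ (s - 1) ≤ S ^ (c + ((s : ℝ) - k - 1)) := by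
    calc (∑ n ∈ Finset.Icc 1 N, ‖a n‖ ^ 2) ^ (s - 1) ≤ S ^ (s - 1) := pow_le_pow_left₀ h80 h8 _
      _ = S ^ ((s : ℝ) - 1) := by
          rw [← Real.rpow_natCast, Nat.cast_sub (by omega)]
          push_cast
          rfl
      _ ≤ _ := by
          apply Real.rpow_le_rpow_of_exponent_le hS1
          linarith
  have h10 : (s.factorial : ℝ) * (s : ℝ) ^ 2 * (∑ n ∈ Finset.Icc 1 N, ‖a n‖ ^ 2) ^ (s - 1) ≤
      (s.factorial : ℝ) * (s : ℝ) ^ 2 * S ^ (c + ((s : ℝ) - k - 1)) :=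
    mul_le_mul_of_nonneg_left h9 (by positivity)
  rw [add_mul]
  rw [abs_le] at h2 h4' ⊢
  constructor
  · linarith [h2.1, h2.2, h4'.1, h4'.2]
  · linarith [h2.1, h2.2, h4'.1, h4'.2]

/-- sets: the asymptotic formula -/
theorem asymS (s k : ℕ) (hks : k < s) (α : ℝ) (hα : 0 < α) (hα1 : α ≤ 1) (c : ℝ) (hc : 0 < c)
    (hkc : (k : ℝ) ≤ c)
    (h : 2 * ((s : ℝ) - k) * (s + k + 1) < α * (c ^ 2 + 4 * (s - k) - 5)) :
    ∃ C : ℝ, ∀ N : ℕ, 1 ≤ N → ∀ A : Finset ℕ, (∀ z ∈ A, 1 ≤ z ∧ z ≤ N) →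
      (N : ℝ) ^ α ≤ A.card →
      |((SA s k A).card : ℝ) - (s.factorial : ℝ) * (A.card : ℝ) ^ s| ≤
        C * (A.card : ℝ) ^ (c + ((s : ℝ) - k - 1)) := by
  classical
  have hks' : (k : ℝ) + 1 ≤ s := by exact_mod_cast hks
  obtain ⟨C3, hC3, h6⟩ := VA.na_alpha s k hks α hα hα1 c hc h
  refine ⟨C3 + (s.factorial : ℝ) * (s : ℝ) ^ 2, fun N hN A hAN hNA => ?_⟩
  have hN1 : (1 : ℝ) ≤ N := by exact_mod_cast hN
  have hQ1 : (1 : ℝ) ≤ A.card := (Real.one_le_rpow hN1 hα.le).trans hNA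
  have hA : A.Nonempty := by
    rw [← Finset.card_pos]
    have : (0 : ℝ) < A.card := by linarith
    exact_mod_cast this
  have h5 := diagN s (by omega) A hA
  have h6' := h6 N hN A hAN hNA
  rw [split_SA s k A]
  push_cast
  have h7 : (0 : ℝ) ≤ ((NA s k A).card : ℝ) := by positivity
  have h9 : (A.card : ℝ) ^ (s - 1) ≤ (A.card : ℝ) ^ (c + ((s : ℝ) - k - 1)) := by
    calc (A.card : ℝ) ^ (s - 1) = (A.card : ℝ) ^ ((s : ℝ) - 1) := by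
          rw [← Real.rpow_natCast, Nat.cast_sub (by omega)]
          push_cast
          rfl
      _ ≤ _ := by
          apply Real.rpow_le_rpow_of_exponent_le hQ1
          linarith
  have h10 : (s.factorial : ℝ) * (s : ℝ) ^ 2 * (A.card : ℝ) ^ (s - 1) ≤
      (s.factorial : ℝ) * (s : ℝ) ^ 2 * (A.card : ℝ) ^ (c + ((s : ℝ) - k - 1)) :=
    mul_le_mul_of_nonneg_left h9 (by positivity)
  have h8 : 0 ≤ C3 * (A.card : ℝ) ^ (c + ((s : ℝ) - k - 1)) := mul_nonneg hC3 (by positivity)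
  rw [abs_le] at h5 ⊢
  rw [add_mul]
  constructor
  · linarith [h5.1, h5.2]
  · linarith [h5.1, h5.2]

end Pool.Agent.Run7.h777.VW
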