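import Pool.Agent.Run7.h777.VW.Seq

/-!
# Vinogradov's system with bounded weights: reduction to solutions without common entries, and the
diagonal solutions
-/

set_option autoImplicit false

namespace Pool.Agent.Run7.h777.VW

open Finset Pool.Agent.W156.PVRED Pool.Agent.Run7.h777.VA

/-- summing over a covering family -/
lemma cover_sum {α β : Type*} [DecidableEq α] (T : Finset α) (U : Finset β) (g : β → α) (f : α → ℝ)
    (hf : ∀ x, 0 ≤ f x) (h : T ⊆ U.image g) : ∑ x ∈ T, f x ≤ ∑ u ∈ U, f (g u) := by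
  classical
  calc ∑ x ∈ T, f x ≤ ∑ x ∈ U.image g, f x :=
        Finset.sum_le_sum_of_subset_of_nonneg h fun x _ _ => hf x
    _ ≤ ∑ x ∈ U.image g, ∑ u ∈ U.filter (fun u => g u = x), f (g u) := by
        apply Finset.sum_le_sum
        intro x hx
        obtain ⟨u, hu, rfl⟩ := Finset.mem_image.1 hx
        exact Finset.single_le_sum (f := fun u => f (g u)) (fun i _ => hf _)
          (Finset.mem_filter.2 ⟨hu, rfl⟩)
    _ = _ := Finset.sum_fiberwise_of_maps_to (fun u hu => Finset.mem_image_of_mem g hu) _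

lemma prod_glue {s t : ℕ} (w : ℕ → ℝ) (σ : Fin t ⊕ Fin (s - t) ≃ Fin s) (a : Fin t → ℕ)
    (b : Fin (s - t) → ℕ) :
    ∏ i, w ((Sum.elim a b ∘ σ.symm) i) = (∏ i, w (a i)) * ∏ i, w (b i) := by
  rw [show (fun i => w ((Sum.elim a b ∘ σ.symm) i)) = fun i => (fun u => w (Sum.elim a b u)) (σ.symm i)
    from rfl]
  rw [Equiv.prod_comp σ.symm (fun u => w (Sum.elim a b u)), Fintype.prod_sum_type]
  simp

theorem redW (s k : ℕ) : ∃ C : ℝ, 0 < C ∧ ∀ (A : Finset ℕ) (w : ℕ → ℝ), (∀ z, 0 ≤ w z) →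
    ∑ p ∈ NA s k A, wt w p ≤ C * ∑ t ∈ Finset.Ioc k s, (∑ z ∈ A, w z ^ 2) ^ (s - t) *
      ∑ p ∈ DA t k A, wt w p := by
  classical
  let M : ℕ → ℕ := fun t => Fintype.card ((Fin t ⊕ Fin (s - t) ≃ Fin s) × (Fin t ⊕ Fin (s - t) ≃ Fin s))
  refine ⟨((∑ t ∈ Finset.range (s + 1), M t : ℕ) : ℝ) + 1, by positivity, ?_⟩
  intro A w hw
  have h1 : ∑ p ∈ NA s k A, wt w p ≤
      ∑ u ∈ (Finset.Ioc k s).sigma (fun t =>
        ((Finset.univ : Finset ((Fin t ⊕ Fin (s - t) ≃ Fin s) × (Fin t ⊕ Fin (s - t) ≃ Fin s))) ×ˢ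
        ((Fintype.piFinset fun _ : Fin (s - t) => A) ×ˢ DA t k A))), wt w (glue u.1 u.2) := by
    apply cover_sum _ _ (fun u : (Σ t : ℕ, ((Fin t ⊕ Fin (s - t) ≃ Fin s) ×
      (Fin t ⊕ Fin (s - t) ≃ Fin s)) × ((Fin (s - t) → ℕ) × ((Fin t → ℕ) × (Fin t → ℕ)))) =>
        glue u.1 u.2) (wt w) (wt_nonneg hw)
    intro p hp
    have h2 := coverA Pool.Agent.W346.PV.Newt.main s k A hp
    rw [Finset.mem_biUnion] at h2
    obtain ⟨t, ht, h3⟩ := h2
    obtain ⟨q, hq, rfl⟩ := Finset.mem_image.1 h3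
    exact Finset.mem_image.2 ⟨⟨t, q⟩, Finset.mem_sigma.2 ⟨ht, hq⟩, rfl⟩
  refine h1.trans ?_
  rw [Finset.sum_sigma, Finset.mul_sum]
  apply Finset.sum_le_sum
  intro t ht
  have h2 : ∑ q ∈ ((Finset.univ : Finset ((Fin t ⊕ Fin (s - t) ≃ Fin s) ×
        (Fin t ⊕ Fin (s - t) ≃ Fin s))) ×ˢ
        ((Fintype.piFinset fun _ : Fin (s - t) => A) ×ˢ DA t k A)), wt w (glue t q) =
      (M t : ℝ) * ((∑ z ∈ A, w z ^ 2) ^ (s - t) * ∑ p ∈ DA t k A, wt w p) := by
    have h3 : ∀ q : ((Fin t ⊕ Fin (s - t) ≃ Fin s) × (Fin t ⊕ Fin (s - t) ≃ Fin s)) ×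
        ((Fin (s - t) → ℕ) × ((Fin t → ℕ) × (Fin t → ℕ))),
        wt w (glue t q) = (∏ i, w (q.2.1 i) ^ 2) * wt w q.2.2 := by
      intro q
      unfold wt glue
      simp only
      rw [prod_glue, prod_glue, Finset.prod_pow]
      ring
    rw [Finset.sum_congr rfl fun q _ => h3 q, Finset.sum_product]
    simp only
    rw [Finset.sum_const, Finset.card_univ, nsmul_eq_mul, Finset.sum_product]
    simp only
    congr 1
    rw [← Finset.sum_mul_sum]
    congr 1
    have h4 := Finset.prod_univ_sum (fun _ : Fin (s - t) => A) (fun _ z => w z ^ 2)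
    rw [← h4, Finset.prod_const, Finset.card_univ, Fintype.card_fin]
  simp only
  rw [h2]
  apply mul_le_mul_of_nonneg_right _ (by
    apply mul_nonneg
    · exact pow_nonneg (Finset.sum_nonneg fun z _ => by positivity) _
    · exact Finset.sum_nonneg fun p _ => wt_nonneg hw p)
  have h3 : M t ≤ ∑ t ∈ Finset.range (s + 1), M t := by
    apply Finset.single_le_sum (f := M) (fun i _ => Nat.zero_le _)
    rw [Finset.mem_range]
    have := (Finset.mem_Ioc.mp ht).2
    omega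
  have h4 : (M t : ℝ) ≤ ((∑ t ∈ Finset.range (s + 1), M t : ℕ) : ℝ) := by exact_mod_cast h3
  linarith

/-- tuples with two equal entries -/
lemma pair_sum (n : ℕ) (A : Finset ℕ) (v : ℕ → ℝ) (hv : ∀ z, 0 ≤ v z) (hv1 : ∀ z, v z ≤ 1)
    (i j : Fin (n + 1)) (hij : i ≠ j) :
    ∑ x ∈ (Fintype.piFinset fun _ : Fin (n + 1) => A).filter (fun x => x i = x j), ∏ l, v (x l) ≤
      (∑ z ∈ A, v z) ^ n := by
  classical
  obtain ⟨l0, hl0⟩ := Fin.exists_succAbove_eq hij
  set S := (Fintype.piFinset fun _ : Fin (n + 1) => A).filter (fun x => x i = x j) with hS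
  have hinj : Set.InjOn (fun (x : Fin (n + 1) → ℕ) (l : Fin n) => x (j.succAbove l)) (S : Set _) := by
    intro x hx y hy hxy
    have hx' : x i = x j := (Finset.mem_filter.1 (Finset.mem_coe.1 hx)).2
    have hy' : y i = y j := (Finset.mem_filter.1 (Finset.mem_coe.1 hy)).2
    have h1 : ∀ l, x (j.succAbove l) = y (j.succAbove l) := fun l => congrFun hxy l
    funext l
    by_cases hl : l = j
    · rw [hl, ← hx', ← hy', ← hl0]
      exact h1 l0
    · obtain ⟨l', hl'⟩ := Fin.exists_succAbove_eq hl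
      rw [← hl']
      exact h1 l'
  have hsub : S.image (fun (x : Fin (n + 1) → ℕ) (l : Fin n) => x (j.succAbove l)) ⊆
      Fintype.piFinset fun _ : Fin n => A := by
    intro y hy
    obtain ⟨x, hx, rfl⟩ := Finset.mem_image.1 hy
    have hx' := (Finset.mem_filter.1 hx).1
    rw [Fintype.mem_piFinset] at hx' ⊢
    exact fun l => hx' _
  calc ∑ x ∈ S, ∏ l, v (x l) ≤ ∑ x ∈ S, ∏ l : Fin n, v (x (j.succAbove l)) := by
        apply Finset.sum_le_sum
        intro x _
        rw [Fin.prod_univ_succAbove _ j]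
        have h1 : 0 ≤ ∏ l : Fin n, v (x (j.succAbove l)) := Finset.prod_nonneg fun l _ => hv _
        have := mul_le_mul_of_nonneg_right (hv1 (x j)) h1
        linarith
    _ = ∑ y ∈ S.image (fun (x : Fin (n + 1) → ℕ) (l : Fin n) => x (j.succAbove l)), ∏ l, v (y l) := by
        rw [Finset.sum_image hinj]
    _ ≤ ∑ y ∈ Fintype.piFinset fun _ : Fin n => A, ∏ l, v (y l) :=
        Finset.sum_le_sum_of_subset_of_nonneg hsub fun y _ _ => Finset.prod_nonneg fun l _ => hv _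
    _ = _ := by
        have h4 := Finset.prod_univ_sum (fun _ : Fin n => A) (fun _ z => v z)
        rw [← h4, Finset.prod_const, Finset.card_univ, Fintype.card_fin]

open scoped Classical in
/-- the diagonal pairs, with weights -/
theorem diagW (s : ℕ) (hs : 1 ≤ s) (A : Finset ℕ) (v : ℕ → ℝ) (hv : ∀ z, 0 ≤ v z)
    (hv1 : ∀ z, v z ≤ 1) :
  |(∑ p ∈ ((Fintype.piFinset fun _ : Fin s => A) ×ˢ (Fintype.piFinset fun _ : Fin s => A)).filter
    (fun p : (Fin s → ℕ) × (Fin s → ℕ) => ∃ σ : Equiv.Perm (Fin s), p.2 = p.1 ∘ σ),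
      ∏ i, v (p.1 i)) - (s.factorial : ℝ) * (∑ z ∈ A, v z) ^ s| ≤
      (s.factorial : ℝ) * (s : ℝ) ^ 2 * (∑ z ∈ A, v z) ^ (s - 1) := by
  set P : Finset (Fin s → ℕ) := Fintype.piFinset fun _ : Fin s => A with hP
  set V : ℝ := ∑ z ∈ A, v z with hV
  have hV0 : 0 ≤ V := Finset.sum_nonneg fun z _ => hv z
  have hPsum : ∑ x ∈ P, ∏ i, v (x i) = V ^ s := by
    have h4 := Finset.prod_univ_sum (fun _ : Fin s => A) (fun _ z => v z)
    rw [hP, ← h4, Finset.prod_const, Finset.card_univ, Fintype.card_fin]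
  set D := (P ×ˢ P).filter
    (fun p : (Fin s → ℕ) × (Fin s → ℕ) => ∃ σ : Equiv.Perm (Fin s), p.2 = p.1 ∘ σ) with hD
  have hnn : ∀ x : Fin s → ℕ, 0 ≤ ∏ i, v (x i) := fun x => Finset.prod_nonneg fun i _ => hv _
  -- upper bound
  have hup : ∑ p ∈ D, ∏ i, v (p.1 i) ≤ s.factorial * V ^ s := by
    have h1 : D ⊆ ((univ : Finset (Equiv.Perm (Fin s))) ×ˢ P).image
        (fun q => (q.2, q.2 ∘ q.1)) := by
      intro p hp
      rw [hD, mem_filter, mem_product] at hp
      obtain ⟨⟨h2, _⟩, σ, h3⟩ := hp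
      rw [mem_image]
      exact ⟨(σ, p.1), mem_product.2 ⟨mem_univ _, h2⟩, Prod.ext rfl h3.symm⟩
    refine (cover_sum D _ _ (fun p => ∏ i, v (p.1 i)) (fun p => hnn p.1) h1).trans ?_
    rw [Finset.sum_product]
    simp only
    rw [Finset.sum_const, card_univ, Fintype.card_perm, Fintype.card_fin, nsmul_eq_mul, hPsum]
  -- lower bound
  set I := P.filter (fun x => Function.Injective x) with hI
  have hlow : (s.factorial : ℝ) * ∑ x ∈ I, ∏ i, v (x i) ≤ ∑ p ∈ D, ∏ i, v (p.1 i) := by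
    have hinj : Set.InjOn (fun q : Equiv.Perm (Fin s) × (Fin s → ℕ) => (q.2, q.2 ∘ q.1))
        (((univ : Finset (Equiv.Perm (Fin s))) ×ˢ I : Finset _) : Set _) := by
      rintro ⟨σ, x⟩ hq ⟨σ', x'⟩ _ h
      have hx : Function.Injective x := by
        have := (Finset.mem_product.1 (Finset.mem_coe.1 hq)).2
        exact (Finset.mem_filter.1 this).2
      have h1 : x = x' := congrArg Prod.fst h
      have h2 : x ∘ σ = x' ∘ σ' := congrArg Prod.snd h
      subst h1
      have h4 : σ = σ' := by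
        ext i
        exact congrArg Fin.val (hx (congrFun h2 i))
      rw [h4]
    have hsub : ((univ : Finset (Equiv.Perm (Fin s))) ×ˢ I).image
        (fun q => (q.2, q.2 ∘ q.1)) ⊆ D := by
      intro p hp
      obtain ⟨⟨σ, x⟩, hq, rfl⟩ := Finset.mem_image.1 hp
      have hx := (Finset.mem_filter.1 (Finset.mem_product.1 hq).2).1
      rw [hD, mem_filter, mem_product]
      refine ⟨⟨hx, ?_⟩, σ, rfl⟩
      rw [hP, Fintype.mem_piFinset] at hx ⊢
      exact fun i => hx _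
    calc (s.factorial : ℝ) * ∑ x ∈ I, ∏ i, v (x i)
        = ∑ q ∈ (univ : Finset (Equiv.Perm (Fin s))) ×ˢ I, ∏ i, v (q.2 i) := by
          rw [Finset.sum_product]
          simp only
          rw [Finset.sum_const, card_univ, Fintype.card_perm, Fintype.card_fin, nsmul_eq_mul]
      _ = ∑ p ∈ ((univ : Finset (Equiv.Perm (Fin s))) ×ˢ I).image
          (fun q => (q.2, q.2 ∘ q.1)), ∏ i, v (p.1 i) := by
          rw [Finset.sum_image hinj]
      _ ≤ _ := Finset.sum_le_sum_of_subset_of_nonneg hsub fun p _ _ => hnn p.1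
  have hnon : ∑ x ∈ P.filter (fun x => ¬ Function.Injective x), ∏ i, v (x i) ≤
      (s : ℝ) ^ 2 * V ^ (s - 1) := by
    have h1 : P.filter (fun x => ¬ Function.Injective x) ⊆
        ((univ.offDiag : Finset (Fin s × Fin s)).sigma (fun ij => P.filter (fun x => x ij.1 = x ij.2))).image
          (fun u => u.2) := by
      intro x hx
      rw [Finset.mem_filter] at hx
      obtain ⟨hxP, hx2⟩ := hx
      unfold Function.Injective at hx2
      push Not at hx2
      obtain ⟨i, j, h3, h4⟩ := hx2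
      exact Finset.mem_image.2 ⟨⟨(i, j), x⟩, Finset.mem_sigma.2
        ⟨Finset.mem_offDiag.2 ⟨mem_univ _, mem_univ _, h4⟩, Finset.mem_filter.2 ⟨hxP, h3⟩⟩, rfl⟩
    refine (cover_sum _ _ _ (fun x => ∏ i, v (x i)) hnn h1).trans ?_
    rw [Finset.sum_sigma]
    obtain ⟨n, rfl⟩ : ∃ n, s = n + 1 := ⟨s - 1, by omega⟩
    calc ∑ ij ∈ (univ.offDiag : Finset (Fin (n + 1) × Fin (n + 1))),
          ∑ x ∈ P.filter (fun x => x ij.1 = x ij.2), ∏ i, v (x i)
        ≤ ∑ ij ∈ (univ.offDiag : Finset (Fin (n + 1) × Fin (n + 1))), V ^ n := by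
          apply Finset.sum_le_sum
          intro ij hij
          exact pair_sum n A v hv hv1 ij.1 ij.2 (Finset.mem_offDiag.1 hij).2.2
      _ ≤ _ := by
          rw [Finset.sum_const, nsmul_eq_mul, Nat.add_sub_cancel]
          apply mul_le_mul_of_nonneg_right _ (pow_nonneg hV0 _)
          rw [Finset.offDiag_card, Finset.card_univ, Fintype.card_fin]
          have : (n + 1) * (n + 1) - (n + 1) ≤ (n + 1) ^ 2 := by
            rw [pow_two]
            exact Nat.sub_le _ _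
          exact_mod_cast this
  have hsplit : ∑ x ∈ I, ∏ i, v (x i) + ∑ x ∈ P.filter (fun x => ¬ Function.Injective x), ∏ i, v (x i) =
      V ^ s := by
    rw [← hPsum, hI]
    exact Finset.sum_filter_add_sum_filter_not P _ _
  have hf : (0 : ℝ) ≤ s.factorial := Nat.cast_nonneg _
  rw [abs_le]
  constructor
  · have h5 : V ^ s - (s : ℝ) ^ 2 * V ^ (s - 1) ≤ ∑ x ∈ I, ∏ i, v (x i) := by linarith
    have := mul_le_mul_of_nonneg_left h5 hf
    nlinarith
  · have : 0 ≤ (s.factorial : ℝ) * (s : ℝ) ^ 2 * V ^ (s - 1) := by positivity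
    linarith

end Pool.Agent.Run7.h777.VW
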