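import Pool.Agent.Run7.h777.VW.Main

/-!
# Vinogradov's system: a restriction estimate without a factor `N ^ ε`
-/

set_option autoImplicit false

namespace Pool.Agent.Run7.h777.VW

open Finset MeasureTheory Pool.Agent.Run7.h777.VA

lemma esum_int (s k : ℕ) (A : Finset ℕ) (a : ℕ → ℂ) :
    IntegrableOn (fun θ => ‖esum k A a θ‖ ^ (2 * s)) (Set.Icc (0 : Fin k → ℝ) 1) := by
  apply Continuous.integrableOn_Icc
  unfold esum chi
  fun_prop

lemma esum_add (s k : ℕ) (A B D : Finset ℕ) (a : ℕ → ℂ)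
    (h : ∀ θ, esum k A a θ = esum k B a θ + esum k D a θ) :
    (∫ θ in Set.Icc (0 : Fin k → ℝ) 1, ‖esum k A a θ‖ ^ (2 * s)) ≤
      2 ^ (2 * s - 1) * ((∫ θ in Set.Icc (0 : Fin k → ℝ) 1, ‖esum k B a θ‖ ^ (2 * s)) +
        ∫ θ in Set.Icc (0 : Fin k → ℝ) 1, ‖esum k D a θ‖ ^ (2 * s)) := by
  rw [← integral_add (esum_int s k B a) (esum_int s k D a), ← integral_const_mul]
  apply integral_mono (esum_int s k A a)
  · exact ((esum_int s k B a).add (esum_int s k D a)).const_mul _
  · intro θ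
    simp only
    rw [h θ]
    calc ‖esum k B a θ + esum k D a θ‖ ^ (2 * s) ≤ (‖esum k B a θ‖ + ‖esum k D a θ‖) ^ (2 * s) :=
          pow_le_pow_left₀ (norm_nonneg _) (norm_add_le _ _) _
      _ ≤ _ := add_pow_le (norm_nonneg _) (norm_nonneg _) _

lemma chi_norm (k n : ℕ) (θ : Fin k → ℝ) : ‖chi k n θ‖ = 1 := by
  unfold chi
  rw [show (2 * (Real.pi : ℂ) * Complex.I * ∑ j : Fin k, (θ j : ℂ) * (n : ℂ) ^ ((j : ℕ) + 1)) =
    ((2 * Real.pi * ∑ j : Fin k, θ j * (n : ℝ) ^ ((j : ℕ) + 1) : ℝ) : ℂ) * Complex.I by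
      push_cast
      ring]
  exact Complex.norm_exp_ofReal_mul_I _

lemma esum_triv (s k : ℕ) (A : Finset ℕ) (a : ℕ → ℂ) (H : ℝ) (hH : ∑ n ∈ A, ‖a n‖ ≤ H) :
    (∫ θ in Set.Icc (0 : Fin k → ℝ) 1, ‖esum k A a θ‖ ^ (2 * s)) ≤ H ^ (2 * s) := by
  have h1 : ∀ θ, ‖esum k A a θ‖ ^ (2 * s) ≤ H ^ (2 * s) := by
    intro θ
    apply pow_le_pow_left₀ (norm_nonneg _)
    refine le_trans ?_ hH
    unfold esum
    refine (norm_sum_le _ _).trans (le_of_eq ?_)
    refine Finset.sum_congr rfl fun n _ => ?_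
    rw [norm_mul, chi_norm, mul_one]
  calc (∫ θ in Set.Icc (0 : Fin k → ℝ) 1, ‖esum k A a θ‖ ^ (2 * s))
      ≤ ∫ _θ in Set.Icc (0 : Fin k → ℝ) 1, H ^ (2 * s) := by
        apply integral_mono (esum_int s k A a)
        · exact (Continuous.integrableOn_Icc continuous_const)
        · exact fun θ => h1 θ
    _ = H ^ (2 * s) := by
        rw [setIntegral_const]
        have : (volume : Measure (Fin k → ℝ)).real (Set.Icc (0 : Fin k → ℝ) 1) = 1 := by
          rw [Measure.real, Real.volume_Icc_pi_toReal zero_le_one]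
          simp
        rw [this, one_smul]

lemma NA_mono (s k : ℕ) (A B : Finset ℕ) (h : A ⊆ B) : (NA s k A).card ≤ (NA s k B).card := by
  classical
  apply Finset.card_le_card
  intro p hp
  rw [NA, Finset.mem_filter, SA, Finset.mem_filter, Finset.mem_product,
    Fintype.mem_piFinset, Fintype.mem_piFinset] at hp ⊢
  exact ⟨⟨⟨fun i => h (hp.1.1.1 i), fun i => h (hp.1.1.2 i)⟩, hp.1.2⟩, hp.2⟩

theorem restr (s k : ℕ) (hks : k < s) (α : ℝ) (hα : 0 < α) (hα1 : α ≤ 1) (δ : ℝ) (hδ : 0 < δ)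
    (hδ1 : δ ≤ 1) (c : ℝ) (hc : 0 < c) (hcδ : c + ((s : ℝ) - k - 1) = s - δ)
    (h : 2 * ((s : ℝ) - k) * (s + k + 1) < α * (c ^ 2 + 4 * (s - k) - 5)) :
    ∃ C : ℝ, ∀ N : ℕ, 1 ≤ N → ∀ (a : ℕ → ℂ) (H : ℝ), (∀ n ∈ Finset.Icc 1 N, ‖a n‖ ≤ H) →
      (N : ℝ) ^ α * H ^ 2 ≤ ∑ n ∈ Finset.Icc 1 N, ‖a n‖ ^ 2 →
      (∫ θ in Set.Icc (0 : Fin k → ℝ) 1, ‖esum k (Finset.Icc 1 N) a θ‖ ^ (2 * s)) ≤
        C * (∑ n ∈ Finset.Icc 1 N, ‖a n‖ ^ 2) ^ s := by
  classical
  obtain ⟨C3, hC3, h6⟩ := VA.na_alpha s k hks α hα hα1 c hc h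
  rw [hcδ] at h6
  have hs0 : (0 : ℝ) < s := by
    have : 0 < s := by omega
    exact_mod_cast this
  have hs1 : (1 : ℝ) ≤ s := by
    have : 1 ≤ s := by omega
    exact_mod_cast this
  set η : ℝ := α * δ / (2 * s) with hη
  have hη0 : 0 < η := by positivity
  obtain ⟨I, hI⟩ : ∃ I : ℕ, 1 ≤ I * η := by
    obtain ⟨I, hI⟩ := exists_nat_gt (1 / η)
    refine ⟨I, ?_⟩
    rw [div_lt_iff₀ hη0] at hI
    linarith
  set C1 : ℝ := s.factorial + C3 * 2 ^ s with hC1
  have hC10 : 0 ≤ C1 := by positivity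
  obtain ⟨K, hK0, hK1⟩ : ∃ K : ℕ → ℝ, K 0 = 1 ∧ ∀ m, K (m + 1) = 2 ^ (2 * s - 1) * (C1 + K m) :=
    ⟨fun m => Nat.rec 1 (fun _ x => 2 ^ (2 * s - 1) * (C1 + x)) m, rfl, fun m => rfl⟩
  refine ⟨K I, ?_⟩
  intro N hN a H hH hS
  have hN1 : (1 : ℝ) ≤ N := by exact_mod_cast hN
  have hN0 : (0 : ℝ) < N := by linarith
  have hH0 : 0 ≤ H := (norm_nonneg _).trans (hH 1 (Finset.mem_Icc.2 ⟨le_rfl, hN⟩))
  set S : ℝ := ∑ n ∈ Finset.Icc 1 N, ‖a n‖ ^ 2 with hSdef
  have hS0 : 0 ≤ S := Finset.sum_nonneg fun n _ => by positivity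
  set B : ℕ → Finset ℕ := fun i => (Finset.Icc 1 N).filter (fun n => ‖a n‖ ≤ H * (N : ℝ) ^ (-(i * η)))
    with hB
  have hB0 : B 0 = Finset.Icc 1 N := by
    rw [hB]
    simp only
    apply Finset.filter_true_of_mem
    intro n hn
    rw [Nat.cast_zero, zero_mul, neg_zero, Real.rpow_zero, mul_one]
    exact hH n hn
  have hBanti : ∀ i, B (i + 1) ⊆ B i := by
    intro i n hn
    rw [hB] at hn ⊢
    simp only [Finset.mem_filter] at hn ⊢
    refine ⟨hn.1, hn.2.trans ?_⟩
    apply mul_le_mul_of_nonneg_left _ hH0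
    apply Real.rpow_le_rpow_of_exponent_le hN1
    push_cast
    nlinarith
  have hBsub : ∀ i, B i ⊆ Finset.Icc 1 N := fun i => Finset.filter_subset _ _
  -- the pieces
  have hpiece : ∀ i, (∫ θ in Set.Icc (0 : Fin k → ℝ) 1, ‖esum k (B i \ B (i + 1)) a θ‖ ^ (2 * s)) ≤
      C1 * S ^ s := by
    intro i
    set A : Finset ℕ := B i \ B (i + 1) with hA
    have hAsub : A ⊆ Finset.Icc 1 N := Finset.sdiff_subset.trans (hBsub i)
    set Hi : ℝ := H * (N : ℝ) ^ (-(i * η)) with hHi
    have hHi0 : 0 ≤ Hi := by positivity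
    have hHiH : Hi ≤ H := by
      rw [hHi]
      have : (N : ℝ) ^ (-(i * η)) ≤ 1 := by
        apply Real.rpow_le_one_of_one_le_of_nonpos hN1
        have : 0 ≤ (i : ℝ) * η := by positivity
        linarith
      have := mul_le_mul_of_nonneg_left this hH0
      linarith
    have h1 := mean_up s k A a Hi (fun n hn => by
      have h2 := (Finset.mem_sdiff.1 hn).1
      exact (Finset.mem_filter.1 h2).2)
    have hSA : ∑ n ∈ A, ‖a n‖ ^ 2 ≤ S :=
      Finset.sum_le_sum_of_subset_of_nonneg hAsub fun n _ _ => by positivity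
    have hSA0 : 0 ≤ ∑ n ∈ A, ‖a n‖ ^ 2 := Finset.sum_nonneg fun n _ => by positivity
    have h2 : (s.factorial : ℝ) * (∑ n ∈ A, ‖a n‖ ^ 2) ^ s ≤ s.factorial * S ^ s :=
      mul_le_mul_of_nonneg_left (pow_le_pow_left₀ hSA0 hSA s) (Nat.cast_nonneg _)
    have h3 : Hi ^ (2 * s) * ((NA s k A).card : ℝ) ≤ C3 * 2 ^ s * S ^ s := by
      by_cases hcase : (N : ℝ) ^ α ≤ A.card
      · have h4 := h6 N hN A (fun z hz => Finset.mem_Icc.1 (hAsub hz)) hcase
        have hA1 : (1 : ℝ) ≤ A.card := (Real.one_le_rpow hN1 hα.le).trans hcase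
        have hA0 : (0 : ℝ) < A.card := by linarith
        have h5 : (A.card : ℝ) * (H * (N : ℝ) ^ (-(((i + 1 : ℕ) : ℝ) * η))) ^ 2 ≤ S := by
          refine le_trans ?_ hSA
          rw [← nsmul_eq_mul]
          apply Finset.card_nsmul_le_sum
          intro n hn
          have h7 := Finset.mem_sdiff.1 hn
          have h8 : ¬ ‖a n‖ ≤ H * (N : ℝ) ^ (-(((i + 1 : ℕ) : ℝ) * η)) := by
            intro h9
            exact h7.2 (Finset.mem_filter.2 ⟨hBsub i h7.1, h9⟩)
          push Not at h8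
          exact pow_le_pow_left₀ (by positivity) h8.le 2
        have h7 : Hi ^ 2 * (A.card : ℝ) ≤ (N : ℝ) ^ (2 * η) * S := by
          have e1 : Hi = (H * (N : ℝ) ^ (-(((i + 1 : ℕ) : ℝ) * η))) * (N : ℝ) ^ η := by
            rw [hHi, mul_assoc, ← Real.rpow_add hN0]
            congr 2
            push_cast
            ring
          have e2 : ((N : ℝ) ^ η) ^ 2 = (N : ℝ) ^ (2 * η) := by
            rw [← Real.rpow_natCast, ← Real.rpow_mul hN0.le]
            congr 1
            push_cast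
            ring
          calc Hi ^ 2 * (A.card : ℝ) = (N : ℝ) ^ (2 * η) *
                ((A.card : ℝ) * (H * (N : ℝ) ^ (-(((i + 1 : ℕ) : ℝ) * η))) ^ 2) := by
                rw [e1, ← e2]
                ring
            _ ≤ _ := mul_le_mul_of_nonneg_left h5 (by positivity)
        have h8 : (A.card : ℝ) ^ ((s : ℝ) - δ) = (A.card : ℝ) ^ s * (A.card : ℝ) ^ (-δ) := by
          rw [← Real.rpow_natCast (A.card : ℝ) s, ← Real.rpow_add hA0]
          rfl
        have h9 : (A.card : ℝ) ^ (-δ) ≤ (N : ℝ) ^ (-(α * δ)) := by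
          have h10 : ((N : ℝ) ^ α) ^ δ ≤ (A.card : ℝ) ^ δ :=
            Real.rpow_le_rpow (by positivity) hcase hδ.le
          rw [← Real.rpow_mul hN0.le] at h10
          rw [Real.rpow_neg hA0.le, Real.rpow_neg hN0.le]
          exact inv_anti₀ (by positivity) h10
        calc Hi ^ (2 * s) * ((NA s k A).card : ℝ) ≤ Hi ^ (2 * s) * (C3 * (A.card : ℝ) ^ ((s : ℝ) - δ)) :=
              mul_le_mul_of_nonneg_left h4 (by positivity)
          _ = C3 * ((Hi ^ 2 * (A.card : ℝ)) ^ s * (A.card : ℝ) ^ (-δ)) := by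
              rw [h8, pow_mul, mul_pow]
              ring
          _ ≤ C3 * (((N : ℝ) ^ (2 * η) * S) ^ s * (N : ℝ) ^ (-(α * δ))) := by
              apply mul_le_mul_of_nonneg_left _ hC3
              apply mul_le_mul _ h9 (by positivity) (by positivity)
              exact pow_le_pow_left₀ (by positivity) h7 s
          _ = C3 * S ^ s := by
              rw [mul_pow, ← Real.rpow_natCast ((N : ℝ) ^ (2 * η)) s, ← Real.rpow_mul hN0.le]
              have e3 : (N : ℝ) ^ (2 * η * s) * (N : ℝ) ^ (-(α * δ)) = 1 := by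
                rw [← Real.rpow_add hN0]
                have : 2 * η * s + -(α * δ) = 0 := by
                  rw [hη]
                  field_simp
                  ring
                rw [this, Real.rpow_zero]
              calc C3 * ((N : ℝ) ^ (2 * η * s) * S ^ s * (N : ℝ) ^ (-(α * δ))) =
                    C3 * S ^ s * ((N : ℝ) ^ (2 * η * s) * (N : ℝ) ^ (-(α * δ))) := by ring
                _ = _ := by rw [e3, mul_one]
          _ ≤ C3 * 2 ^ s * S ^ s := by
              apply mul_le_mul_of_nonneg_right _ (by positivity)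
              have : (1 : ℝ) ≤ 2 ^ s := one_le_pow₀ (by norm_num)
              nlinarith
      · push Not at hcase
        obtain ⟨M, hM⟩ : ∃ M : ℕ, M = ⌈(N : ℝ) ^ α⌉₊ := ⟨_, rfl⟩
        have hNα1 : 1 ≤ (N : ℝ) ^ α := Real.one_le_rpow hN1 hα.le
        have hM1 : (N : ℝ) ^ α ≤ M := by
          rw [hM]
          exact Nat.le_ceil _
        have hM2 : (M : ℝ) ≤ 2 * (N : ℝ) ^ α := by
          have := Nat.ceil_lt_add_one (by linarith : 0 ≤ (N : ℝ) ^ α)
          rw [hM]
          linarith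
        have hMN : M ≤ N := by
          rw [hM]
          apply Nat.ceil_le.2
          calc (N : ℝ) ^ α ≤ (N : ℝ) ^ (1 : ℝ) := Real.rpow_le_rpow_of_exponent_le hN1 hα1
            _ = N := Real.rpow_one _
        have hAM : A.card ≤ M := by
          have : (A.card : ℝ) ≤ M := by linarith
          exact_mod_cast this
        obtain ⟨U, hU1, hU2, hU3⟩ := Finset.exists_subsuperset_card_eq hAsub hAM (by
          rw [Nat.card_Icc, Nat.add_sub_cancel]
          exact hMN)
        have h4 := h6 N hN U (fun z hz => Finset.mem_Icc.1 (hU2 hz)) (by rw [hU3]; exact hM1)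
        have h5 : ((NA s k A).card : ℝ) ≤ (NA s k U).card := by
          exact_mod_cast NA_mono s k A U hU1
        rw [hU3] at h4
        have h7 : (M : ℝ) ^ ((s : ℝ) - δ) ≤ 2 ^ s * ((N : ℝ) ^ α) ^ s := by
          calc (M : ℝ) ^ ((s : ℝ) - δ) ≤ (M : ℝ) ^ (s : ℝ) := by
                apply Real.rpow_le_rpow_of_exponent_le (hNα1.trans hM1)
                linarith
            _ = (M : ℝ) ^ s := Real.rpow_natCast _ _
            _ ≤ (2 * (N : ℝ) ^ α) ^ s := pow_le_pow_left₀ (Nat.cast_nonneg _) hM2 s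
            _ = _ := mul_pow _ _ _
        have h8 : Hi ^ 2 * (N : ℝ) ^ α ≤ S := by
          calc Hi ^ 2 * (N : ℝ) ^ α ≤ H ^ 2 * (N : ℝ) ^ α :=
                mul_le_mul_of_nonneg_right (pow_le_pow_left₀ hHi0 hHiH 2) (by positivity)
            _ = (N : ℝ) ^ α * H ^ 2 := mul_comm _ _
            _ ≤ S := hS
        calc Hi ^ (2 * s) * ((NA s k A).card : ℝ) ≤ Hi ^ (2 * s) * (C3 * (2 ^ s * ((N : ℝ) ^ α) ^ s)) := by
              apply mul_le_mul_of_nonneg_left _ (by positivity)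
              refine (h5.trans h4).trans ?_
              exact mul_le_mul_of_nonneg_left h7 hC3
          _ = C3 * 2 ^ s * (Hi ^ 2 * (N : ℝ) ^ α) ^ s := by
              rw [pow_mul, mul_pow]
              ring
          _ ≤ _ := by
              apply mul_le_mul_of_nonneg_left _ (by positivity)
              exact pow_le_pow_left₀ (by positivity) h8 s
    calc (∫ θ in Set.Icc (0 : Fin k → ℝ) 1, ‖esum k A a θ‖ ^ (2 * s))
        ≤ s.factorial * (∑ n ∈ A, ‖a n‖ ^ 2) ^ s + Hi ^ (2 * s) * ((NA s k A).card : ℝ) := h1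
      _ ≤ s.factorial * S ^ s + C3 * 2 ^ s * S ^ s := add_le_add h2 h3
      _ = C1 * S ^ s := by rw [hC1]; ring
  -- the tail
  have htail : (∫ θ in Set.Icc (0 : Fin k → ℝ) 1, ‖esum k (B I) a θ‖ ^ (2 * s)) ≤ S ^ s := by
    have h1 : ∑ n ∈ B I, ‖a n‖ ≤ H := by
      calc ∑ n ∈ B I, ‖a n‖ ≤ ∑ n ∈ B I, H * (N : ℝ) ^ (-(I * η)) :=
            Finset.sum_le_sum fun n hn => (Finset.mem_filter.1 hn).2
        _ = (B I).card * (H * (N : ℝ) ^ (-(I * η))) := by
            rw [Finset.sum_const, nsmul_eq_mul]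
        _ ≤ N * (H * (N : ℝ) ^ (-(1 : ℝ))) := by
            apply mul_le_mul
            · have h2 := Finset.card_le_card (hBsub I)
              rw [Nat.card_Icc, Nat.add_sub_cancel] at h2
              exact_mod_cast h2
            · apply mul_le_mul_of_nonneg_left _ hH0
              apply Real.rpow_le_rpow_of_exponent_le hN1
              linarith
            · positivity
            · positivity
        _ = H := by
            rw [Real.rpow_neg hN0.le, Real.rpow_one]
            field_simp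
    refine (esum_triv s k (B I) a H h1).trans ?_
    rw [pow_mul]
    apply pow_le_pow_left₀ (by positivity)
    refine le_trans ?_ hS
    have := mul_le_mul_of_nonneg_right (Real.one_le_rpow hN1 hα.le) (by positivity : 0 ≤ H ^ 2)
    linarith
  -- induction
  have hind : ∀ m ≤ I, (∫ θ in Set.Icc (0 : Fin k → ℝ) 1, ‖esum k (B (I - m)) a θ‖ ^ (2 * s)) ≤
      K m * S ^ s := by
    intro m
    induction m with
    | zero =>
      intro _
      rw [Nat.sub_zero, hK0, one_mul]
      exact htail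
    | succ m ih =>
      intro hm
      have h1 := ih (by omega)
      have e1 : I - m = (I - (m + 1)) + 1 := by omega
      rw [e1] at h1
      have h2 := esum_add s k (B (I - (m + 1))) (B (I - (m + 1)) \ B (I - (m + 1) + 1))
        (B (I - (m + 1) + 1)) a (by
          intro θ
          unfold esum
          exact (Finset.sum_sdiff (hBanti _)).symm)
      refine h2.trans ?_
      rw [hK1, mul_assoc]
      apply mul_le_mul_of_nonneg_left _ (by positivity)
      rw [add_mul]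
      exact add_le_add (hpiece _) h1
  have hfin := hind I le_rfl
  rw [Nat.sub_self, hB0] at hfin
  exact hfin

end Pool.Agent.Run7.h777.VW
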