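import Pool.Agent.Run7.h777.VW.Core
import Pool.Agent.Run7.h777.VA.Red

/-!
# Vinogradov's system with bounded weights: solutions without common entries
-/

set_option autoImplicit false

namespace Pool.Agent.Run7.h777.VW

open Finset Pool.Agent.N541.LV Pool.Agent.N712.LV Pool.Agent.Run7.h777.VA

/-- the weight of a pair of tuples -/
def wt (w : ℕ → ℝ) {s : ℕ} (p : (Fin s → ℕ) × (Fin s → ℕ)) : ℝ :=
  (∏ i, w (p.1 i)) * ∏ i, w (p.2 i)

lemma wt_nonneg {w : ℕ → ℝ} (hw : ∀ z, 0 ≤ w z) {s : ℕ} (p : (Fin s → ℕ) × (Fin s → ℕ)) :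
    0 ≤ wt w p :=
  mul_nonneg (Finset.prod_nonneg fun i _ => hw _) (Finset.prod_nonneg fun i _ => hw _)

lemma FF_prod (w : ℕ → ℝ) (X Y : ℕ → ℕ) (i : ℕ) :
    ((FF X Y i).map w).prod = (∏ j ∈ range i, w (X j)) * ∏ j ∈ range i, w (Y j) := by
  induction i with
  | zero => simp [FF]
  | succ i ih =>
    show ((Y i :: X i :: FF X Y i).map w).prod = _
    rw [List.map_cons, List.map_cons, List.prod_cons, List.prod_cons, ih, Finset.prod_range_succ,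
      Finset.prod_range_succ]
    ring

lemma prod_exw (w : ℕ → ℝ) {s : ℕ} (x : Fin s → ℕ) : ∏ j ∈ range s, w (ex x j) = ∏ i, w (x i) := by
  rw [← Fin.prod_univ_eq_prod_range (fun j => w (ex x j))]
  refine Finset.prod_congr rfl fun i _ => ?_
  rw [ex_val]

theorem seqW (d s N : ℕ) (R : Fin d → ℕ) (w : ℕ → ℝ) (hw : ∀ z, 0 ≤ w z)
    (T : Finset ((Fin s → ℕ) × (Fin s → ℕ)))
    (hT : ∀ p ∈ T, (∀ i, 1 ≤ p.1 i ∧ p.1 i ≤ N) ∧ (∀ i, 1 ≤ p.2 i ∧ p.2 i ≤ N) ∧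
      (∀ i j, p.1 i ≠ p.2 j) ∧
      ∃ P ∈ box R, ∀ t : ℤ, ev P t = ∏ i, (t - (p.1 i : ℤ)) - ∏ i, (t - (p.2 i : ℤ))) :
    ∑ p ∈ T, wt w p ≤ ∑ l ∈ seqs N (Live d R) (2 * s), (l.map w).prod := by
  classical
  have hinj : Set.InjOn (fun p : (Fin s → ℕ) × (Fin s → ℕ) => FF (ex p.1) (ex p.2) s) (T : Set _) := by
    intro p _ q _ hpq
    have h := FF_inj s hpq
    refine Prod.ext (funext fun i => ?_) (funext fun i => ?_)
    · rw [← ex_val p.1 i, ← ex_val q.1 i]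
      exact (h i i.2).1
    · rw [← ex_val p.2 i, ← ex_val q.2 i]
      exact (h i i.2).2
  have hsub : T.image (fun p => FF (ex p.1) (ex p.2) s) ⊆ seqs N (Live d R) (2 * s) := by
    intro l hl
    obtain ⟨p, hp, rfl⟩ := Finset.mem_image.1 hl
    obtain ⟨hx, hy, hxy, P, hP, hev⟩ := hT p hp
    have hxA : ∀ j < s, 1 ≤ ex p.1 j ∧ ex p.1 j ≤ N := by
      intro j hj
      rw [ex_lt _ hj]
      exact hx _
    have hyA : ∀ j < s, 1 ≤ ex p.2 j ∧ ex p.2 j ≤ N := by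
      intro j hj
      rw [ex_lt _ hj]
      exact hy _
    have key : ∀ i ≤ s, FF (ex p.1) (ex p.2) i ∈ seqs N (Live d R) (2 * i) := by
      intro i hi
      induction i with
      | zero => exact mem_singleton_self _
      | succ i ih =>
        have h1 := ih (by omega)
        have hL := live hP hxy hev
        have h2 := (hL i (by omega)).2 (by omega)
        have h3 := (hL (i + 1) hi).1
        have hpt : ∀ l : List ℕ, P ∈ lat d l → P ∈ pts (lat d l) R := fun l hl =>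
          mem_filter.2 ⟨hP, hl⟩
        have h4 : ex p.1 i :: FF (ex p.1) (ex p.2) i ∈ seqs N (Live d R) (2 * i + 1) :=
          mem_step h1 (hxA i (by omega)).1 (hxA i (by omega)).2 ⟨P, hpt _ h2.1, h2.2⟩
        have h5 : ex p.2 i :: ex p.1 i :: FF (ex p.1) (ex p.2) i ∈
            seqs N (Live d R) (2 * i + 1 + 1) :=
          mem_step h4 (hyA i (by omega)).1 (hyA i (by omega)).2 ⟨P, hpt _ h3.1, h3.2⟩
        exact h5
    exact key s le_rfl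
  have hmapnn : ∀ p : List ℕ, 0 ≤ (p.map w).prod := by
    intro p
    apply List.prod_nonneg
    intro x hx
    obtain ⟨z, _, rfl⟩ := List.mem_map.1 hx
    exact hw z
  calc ∑ p ∈ T, wt w p = ∑ p ∈ T, ((FF (ex p.1) (ex p.2) s).map w).prod := by
        refine Finset.sum_congr rfl fun p _ => ?_
        rw [FF_prod, prod_exw, prod_exw]
        rfl
    _ = ∑ l ∈ T.image (fun p => FF (ex p.1) (ex p.2) s), (l.map w).prod := by
        rw [Finset.sum_image hinj]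
    _ ≤ _ := Finset.sum_le_sum_of_subset_of_nonneg hsub fun l _ _ => hmapnn l

/-- disjoint solutions, any `q` -/
theorem da_q (k d q : ℕ) (hd : 1 ≤ d) (hq : 1 ≤ q) (ε : ℝ) (hε : 0 < ε) :
    ∃ C : ℝ, 0 < C ∧ ∀ N : ℕ, 1 ≤ N → ∀ w : ℕ → ℝ, (∀ z, 0 ≤ w z) → (∀ z, w z ≤ 1) →
      ∀ Q : ℕ, 1 ≤ Q → ∑ z ∈ Finset.Icc 1 N, w z ≤ Q →
      ∑ p ∈ DA (k + d) k (Finset.Icc 1 N), wt w p ≤
      C * (N : ℝ) ^ (((d : ℝ) * ((k : ℝ) + d) - (d : ℝ) * (d - 1) / 2) / q + ε) *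
        (Q : ℝ) ^ ((q : ℝ) + (1 - 1 / (q : ℝ)) * ((d : ℝ) - 1)) := by
  obtain ⟨C, hC0, h⟩ := coreW d q (k + d) (2 ^ (k + d + 1)) hd (by omega) hq ε hε
  refine ⟨C, hC0, fun N hN w hw hw1 Q hQ hwQ => ?_⟩
  have h1 := h N hN (fun l : Fin d => 2 ^ (k + d + 1) * N ^ (k + d - (l : ℕ)))
    (fun l => ⟨Nat.one_le_iff_ne_zero.2 (by positivity), le_rfl⟩) w hw hw1 Q hQ hwQ
  have h2 : ∑ p ∈ DA (k + d) k (Finset.Icc 1 N), wt w p ≤
      ∑ l ∈ seqs N (Live d (fun l : Fin d =>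
      2 ^ (k + d + 1) * N ^ (k + d - (l : ℕ)))) (2 * (k + d)), (l.map w).prod := by
    apply seqW d (k + d) N _ w hw
    intro p hp
    rw [DA, Finset.mem_filter, SA, Finset.mem_filter, Finset.mem_product, Fintype.mem_piFinset,
      Fintype.mem_piFinset] at hp
    obtain ⟨⟨⟨h1, h2⟩, h3⟩, h4⟩ := hp
    have h1' : ∀ i, 1 ≤ p.1 i ∧ p.1 i ≤ N := fun i => Finset.mem_Icc.1 (h1 i)
    have h2' : ∀ i, 1 ≤ p.2 i ∧ p.2 i ≤ N := fun i => Finset.mem_Icc.1 (h2 i)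
    exact ⟨h1', h2', h4, pol k d N p.1 p.2 hN h1' h2' h3⟩
  refine h2.trans (h1.trans (le_of_eq ?_))
  push_cast
  ring_nf

end Pool.Agent.Run7.h777.VW
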